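import Pool.Agent.Y868.TB.F1

/-! The Hardy-Littlewood formula for almost all pairs `(a, b)`. -/

set_option autoImplicit false

namespace Pool.Agent.Y868.TB
open Finset Filter Topology
open Pool.Agent.W468.ConjF
open Pool.Agent.W218.HF.QFinal (eps gcdProd cutC gcdProd_pos eps_pos CF_eq)
open Pool.Agent.Y868.TA (dens pol th val theta)
open Pool.Agent.H373R2.T7 (pz Vz mem_pz Vz_inv_small)

lemma abel0 (w b : ℕ → ℝ) (m N : ℕ) (hmN : m < N) (hw : ∀ n, m < n → 0 ≤ w n)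
    (hanti : ∀ n, m < n → n < N → w (n + 1) ≤ w n) (R : ℝ)
    (hb : ∀ n, m ≤ n → n ≤ N → |∑ i ∈ Ioc m n, b i| ≤ R) :
    |∑ i ∈ Ioc m N, w i * b i| ≤ R * w (m + 1) := by
  have key : ∀ n, m + 1 ≤ n → n ≤ N → |∑ i ∈ Ioc m n, w i * b i - w n * ∑ i ∈ Ioc m n, b i| ≤
      R * (w (m + 1) - w n) := by
    intro n hn
    induction n, hn using Nat.le_induction with
    | base =>
      intro _
      rw [Nat.Ioc_succ_singleton, sum_singleton, sum_singleton, sub_self, sub_self, abs_zero, mul_zero]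
    | succ n hn ih =>
      intro hnN
      have h1 := ih (by omega)
      rw [sum_Ioc_succ_top (by omega), sum_Ioc_succ_top (by omega)]
      have e : ∑ i ∈ Ioc m n, w i * b i + w (n + 1) * b (n + 1) -
          w (n + 1) * (∑ i ∈ Ioc m n, b i + b (n + 1)) =
          (∑ i ∈ Ioc m n, w i * b i - w n * ∑ i ∈ Ioc m n, b i) + (w n - w (n + 1)) * ∑ i ∈ Ioc m n, b i := by
        ring
      rw [e]
      refine (abs_add_le _ _).trans ?_
      have hw1 : 0 ≤ w n - w (n + 1) := by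
        have := hanti n (by omega) (by omega)
        linarith
      rw [abs_mul (w n - w (n + 1)), abs_of_nonneg hw1]
      have h2 := mul_le_mul_of_nonneg_left (hb n (by omega) (by omega)) hw1
      linarith
  have h1 := key N hmN le_rfl
  have h2 : |w N * ∑ i ∈ Ioc m N, b i| ≤ w N * R := by
    rw [abs_mul, abs_of_nonneg (hw N hmN)]
    exact mul_le_mul_of_nonneg_left (hb N hmN.le le_rfl) (hw N hmN)
  have h3 := abs_add_le (∑ i ∈ Ioc m N, w i * b i - w N * ∑ i ∈ Ioc m N, b i) (w N * ∑ i ∈ Ioc m N, b i)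
  rw [sub_add_cancel] at h3
  linarith

lemma val_zero (c : ℤ) (a b m : ℕ) : val 0 c a b m = (a : ℤ) * (m : ℤ) ^ 2 + b * m + c := by
  unfold Pool.Agent.Y868.TA.val
  rw [Polynomial.eval_zero]
  ring

/-- from weights to the count -/
lemma count_of_theta (a b : ℕ) (c : ℤ) (ha : 1 ≤ a) (hb : |c| + 4 ≤ (b : ℤ)) (d R : ℝ) (hR : 0 ≤ R) (u v : ℕ) (huv : u < v)
    (h : ∀ n, u ≤ n → n ≤ v → |∑ m ∈ Ioc u n, (th (val 0 c a b m).toNat - d)| ≤ R) :
    |(#((Ioc u v).filter (fun m : ℕ => ((a : ℤ) * (m : ℤ) ^ 2 + b * m + c).toNat.Prime)) : ℝ) -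
      d * ∑ m ∈ Ioc u v, 1 / Real.log ((a : ℝ) * m ^ 2 + b * m + c)| ≤ R ∧
    (∀ m : ℕ, 1 ≤ m → 1 ≤ Real.log ((a : ℝ) * (m : ℝ) ^ 2 + b * m + c)) := by
  have hc := neg_abs_le c
  have hf : ∀ m : ℕ, 1 ≤ m → 5 ≤ (a : ℤ) * (m : ℤ) ^ 2 + b * m + c := by
    intro m hm
    have hm' : (1 : ℤ) ≤ m := by exact_mod_cast hm
    have ha' : (1 : ℤ) ≤ a := by exact_mod_cast ha
    have h1 : (1 : ℤ) ≤ a * (m : ℤ) ^ 2 := by
      have : (1 : ℤ) ≤ (m : ℤ) ^ 2 := one_le_pow₀ hm'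
      nlinarith
    have h0 : 0 ≤ |c| := abs_nonneg c
    have h2 : |c| + 4 ≤ b * m := by nlinarith
    linarith
  have hfr : ∀ m : ℕ, ((((a : ℤ) * (m : ℤ) ^ 2 + b * m + c).toNat : ℕ) : ℝ) = max ((a : ℝ) * m ^ 2 + b * m + c) 0 := by
    intro m
    have h1 : ((((a : ℤ) * (m : ℤ) ^ 2 + b * m + c).toNat : ℤ)) = max ((a : ℤ) * (m : ℤ) ^ 2 + b * m + c) 0 := Int.toNat_eq_max _
    have h2 := congrArg (fun t : ℤ => (t : ℝ)) h1
    push_cast at h2
    exact h2
  have hfr' : ∀ m : ℕ, 1 ≤ m → ((((a : ℤ) * (m : ℤ) ^ 2 + b * m + c).toNat : ℕ) : ℝ) = (a : ℝ) * m ^ 2 + b * m + c := by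
    intro m hm
    rw [hfr m, max_eq_left]
    have := hf m hm
    have h3 : (5 : ℝ) ≤ (a : ℝ) * m ^ 2 + b * m + c := by exact_mod_cast this
    linarith
  have hf5 : ∀ m : ℕ, 1 ≤ m → (5 : ℝ) ≤ (a : ℝ) * m ^ 2 + b * m + c := by
    intro m hm
    exact_mod_cast hf m hm
  have hlog1 : ∀ m : ℕ, 1 ≤ m → 1 ≤ Real.log ((a : ℝ) * (m : ℝ) ^ 2 + b * m + c) := by
    intro m hm
    rw [← Real.log_exp 1]
    apply Real.log_le_log (Real.exp_pos _)
    have := Real.exp_one_lt_d9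
    have := hf5 m hm
    linarith
  refine ⟨?_, hlog1⟩
  have h1 := abel0 (fun m => 1 / Real.log ((a : ℝ) * m ^ 2 + b * m + c)) (fun m => th (val 0 c a b m).toNat - d) u v huv ?_ ?_ R h
  · have e : ∑ m ∈ Ioc u v, 1 / Real.log ((a : ℝ) * m ^ 2 + b * m + c) * (th (val 0 c a b m).toNat - d) =
        (#((Ioc u v).filter (fun m : ℕ => ((a : ℤ) * (m : ℤ) ^ 2 + b * m + c).toNat.Prime)) : ℝ) -
        d * ∑ m ∈ Ioc u v, 1 / Real.log ((a : ℝ) * m ^ 2 + b * m + c) := by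
      rw [card_filter]
      push_cast
      rw [mul_sum, ← sum_sub_distrib]
      refine sum_congr rfl fun m hm => ?_
      rw [mem_Ioc] at hm
      have h2 := hlog1 m (by omega)
      rw [val_zero]
      unfold th
      split_ifs with hp
      · rw [hfr' m (by omega), mul_sub, one_div_mul_cancel (by linarith)]
        ring
      · ring
    rw [e] at h1
    refine h1.trans ?_
    have h2 := hlog1 (u + 1) (by omega)
    have h3 : 1 / Real.log ((a : ℝ) * ((u + 1 : ℕ) : ℝ) ^ 2 + b * ((u + 1 : ℕ) : ℝ) + c) ≤ 1 := by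
      rw [div_le_one (by linarith)]
      exact h2
    calc _ ≤ R * 1 := mul_le_mul_of_nonneg_left h3 hR
      _ = R := mul_one R
  · intro n hn
    have := hlog1 n (by omega)
    positivity
  · intro n hn _
    have h2 := hlog1 n (by omega)
    apply one_div_le_one_div_of_le (by linarith)
    apply Real.log_le_log
    · have := hf5 n (by omega)
      linarith
    · have ha0 : (0 : ℝ) ≤ a := Nat.cast_nonneg _
      have hb0 : (0 : ℝ) ≤ b := Nat.cast_nonneg _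
      have hn0 : (0 : ℝ) ≤ n := Nat.cast_nonneg _
      push_cast
      nlinarith

/-- lower bound for the densities -/
lemma dens_low (a b : ℕ) (c : ℤ) (h : Admissible a b c) (z : ℕ) (hz : 2 ≤ z) (V : ℝ) (hV : (Vz z)⁻¹ ≤ V) :
    1 / (256 * V ^ 3) ≤ dens 0 c a b z := by
  have hV0 := Pool.Agent.H373R2.T7.Vz_pos z
  have hVi : 0 < (Vz z)⁻¹ := inv_pos.2 hV0
  have hVp : 0 < V := hVi.trans_le hV
  have h1 := dens_CF a b c h z hz
  have hpos : 0 < dens 0 c a b z := by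
    rw [h1]
    have := CF_pos a b c z
    linarith
  have hrho : ∀ p ∈ pz z, Pool.Agent.TH204.WR.rho (pol 0 a b) c p < p := by
    intro p hp
    refine lt_of_le_of_ne (Pool.Agent.TH204.WR.rho_le _ _ _) ?_
    intro heq
    have h2 : dens 0 c a b z = 0 := by
      unfold Pool.Agent.Y868.TA.dens Pool.Agent.TH204.WR.hh
      have h3 : ∏ p ∈ pz z, (1 - (Pool.Agent.TH204.WR.rho (pol 0 a b) c p : ℝ) / p) = 0 := by
        apply prod_eq_zero hp
        rw [heq, div_self (by exact_mod_cast (mem_pz.1 hp).2.ne_zero), sub_self]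
      rw [h3, mul_zero]
    linarith
  have h2 := Pool.Agent.TH204.WR.V_low (pol 0 a b) c z 2 (by norm_num)
    (Pool.Agent.Y868.TA.pol_deg 0 a b 2 le_rfl (by simp)) hrho
  unfold Pool.Agent.Y868.TA.dens Pool.Agent.TH204.WR.hh
  have h3 : 1 / (256 * V ^ 3) ≤ (Vz z)⁻¹ * ((1 / (2 * ((2 : ℕ) : ℝ))) ^ (2 * 2) * Vz z ^ (2 * 2)) := by
    have h4 : (Vz z)⁻¹ * ((1 / (2 * ((2 : ℕ) : ℝ))) ^ (2 * 2) * Vz z ^ (2 * 2)) = 1 / (256 * ((Vz z)⁻¹) ^ 3) := by
      push_cast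
      field_simp
      norm_num
    rw [h4]
    apply one_div_le_one_div_of_le (by positivity)
    have := pow_le_pow_left₀ hVi.le hV 3
    linarith
  exact h3.trans (mul_le_mul_of_nonneg_left h2 hVi.le)

/-- the case of one pair -/
lemma pair_final (U a b : ℕ) (c : ℤ) (h : Admissible a b c) (x z : ℕ) (L : ℝ) (hL : 32 ≤ L) (hz : 2 ≤ z) (hab : NoBig a b z)
    (hb : |c| + 4 ≤ (b : ℤ)) (δ : ℝ) (hδ : ∀ᶠ N in atTop, |SJ ((b : ℤ) ^ 2 - 4 * a * c) z N| ≤ δ)
    (hη : δ + 5 / z + 4 * Real.log a / z ≤ 1 / (4 * L ^ U)) (hV : (Vz z)⁻¹ ≤ L)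
    (hth : ∀ u v : ℕ, u ≤ v → v ≤ x → (∀ m ∈ Ioc u v, 0 ≤ val 0 c a b m) →
        |∑ m ∈ Ioc u v, (th (val 0 c a b m).toNat - dens 0 c a b z)| ≤ x / L ^ (U + 5)) :
    ∃ S : ℝ, 0 < S ∧ Tendsto (fun z => cutC a b c z) atTop (𝓝 S) ∧ ∀ u v : ℕ, u < v → v ≤ x →
      |(#((Ioc u v).filter (fun m : ℕ => ((a : ℤ) * (m : ℤ) ^ 2 + b * m + c).toNat.Prime)) : ℝ) -
        eps a b * S * gcdProd a b * ∑ m ∈ Ioc u v, 1 / Real.log ((a : ℝ) * m ^ 2 + b * m + c)| ≤
      eps a b * S * gcdProd a b * x / L ^ U := by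
  have ha1 : 1 ≤ a := by
    have := h.1
    exact_mod_cast this
  have hL0 : 0 < L := by linarith
  have hLU : 1 ≤ L ^ U := one_le_pow₀ (by linarith)
  have hη1 : δ + 5 / z + 4 * Real.log a / z ≤ 1 / 2 := by
    refine hη.trans ?_
    rw [div_le_div_iff₀ (by positivity) (by norm_num)]
    linarith
  obtain ⟨S, hS0, hSt, hS⟩ := const_close a b c h z hz hab δ hδ hη1
  refine ⟨S, hS0, hSt, fun u v huv hvx => ?_⟩
  set G := eps a b * S * gcdProd a b with hG
  have hG0 : 0 < G := mul_pos (mul_pos (eps_pos a b) hS0) (gcdProd_pos a b)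
  set η : ℝ := δ + 5 / z + 4 * Real.log a / z with hηd
  set d := dens 0 c a b z with hd
  have hc := neg_abs_le c
  have hval : ∀ u' v' : ℕ, ∀ m ∈ Ioc u' v', 0 ≤ val 0 c a b m := by
    intro u' v' m hm
    rw [mem_Ioc] at hm
    have hm' : (1 : ℤ) ≤ m := by exact_mod_cast (by omega : 1 ≤ m)
    rw [val_zero]
    have h0 : 0 ≤ |c| := abs_nonneg c
    have h2 : |c| + 4 ≤ b * m := by nlinarith
    have h3 : (0 : ℤ) ≤ a * (m : ℤ) ^ 2 := by positivity
    linarith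
  obtain ⟨h1, hlog⟩ := count_of_theta a b c ha1 hb d (x / L ^ (U + 5)) (by positivity) u v huv
    (fun n hn1 hn2 => hth u n hn1 (hn2.trans hvx) (hval u n))
  have hlow := dens_low a b c h z hz L hV
  rw [← hd] at hlow
  -- `G ≥ 1 / (512 L³)`
  have hGl : 1 / (512 * L ^ 3) ≤ G := by
    have h2 := (abs_le.1 hS).2
    have h3 : 2 * η * G ≤ 1 * G := mul_le_mul_of_nonneg_right (by linarith) hG0.le
    have h4 : 1 / (256 * L ^ 3) = 2 * (1 / (512 * L ^ 3)) := by field_simp; norm_num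
    rw [h4] at hlow
    linarith
  -- the sum of the weights
  have hsum : ∑ m ∈ Ioc u v, 1 / Real.log ((a : ℝ) * m ^ 2 + b * m + c) ≤ x := by
    calc ∑ m ∈ Ioc u v, 1 / Real.log ((a : ℝ) * m ^ 2 + b * m + c) ≤ ∑ m ∈ Ioc u v, (1 : ℝ) := by
          apply sum_le_sum
          intro m hm
          rw [mem_Ioc] at hm
          have := hlog m (by omega)
          rw [div_le_one (by linarith)]
          exact this
      _ = ((v - u : ℕ) : ℝ) := by rw [sum_const, Nat.card_Ioc, nsmul_eq_mul, mul_one]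
      _ ≤ x := by exact_mod_cast (by omega : v - u ≤ x)
  have hsum0 : 0 ≤ ∑ m ∈ Ioc u v, 1 / Real.log ((a : ℝ) * m ^ 2 + b * m + c) := by
    apply sum_nonneg
    intro m hm
    rw [mem_Ioc] at hm
    have := hlog m (by omega)
    positivity
  set W := ∑ m ∈ Ioc u v, 1 / Real.log ((a : ℝ) * m ^ 2 + b * m + c) with hW
  have e : (#((Ioc u v).filter (fun m : ℕ => ((a : ℤ) * (m : ℤ) ^ 2 + b * m + c).toNat.Prime)) : ℝ) - G * W =
      ((#((Ioc u v).filter (fun m : ℕ => ((a : ℤ) * (m : ℤ) ^ 2 + b * m + c).toNat.Prime)) : ℝ) - d * W) + (d - G) * W := by ring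
  rw [e]
  refine (abs_add_le _ _).trans ?_
  have h5 : |(d - G) * W| ≤ (2 * η * G) * x := by
    rw [abs_mul, abs_of_nonneg hsum0]
    have hηG : 0 ≤ 2 * η * G := (abs_nonneg _).trans hS
    exact mul_le_mul hS hsum hsum0 hηG
  have h6 : (2 * η * G) * x ≤ (1 / 2) * (G * x / L ^ U) := by
    have h7 : 2 * η ≤ (1 / 2) * (1 / L ^ U) := by
      have : (1 : ℝ) / (4 * L ^ U) = (1 / 4) * (1 / L ^ U) := by field_simp
      rw [this] at hη
      linarith
    have h8 := mul_le_mul_of_nonneg_right h7 (show 0 ≤ G * x by positivity)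
    calc (2 * η * G) * x = 2 * η * (G * x) := by ring
      _ ≤ (1 / 2) * (1 / L ^ U) * (G * x) := h8
      _ = _ := by ring
  have h7 : (x : ℝ) / L ^ (U + 5) ≤ (1 / 2) * (G * x / L ^ U) := by
    have h8 : (1 : ℝ) ≤ 512 * L ^ 3 * G := by
      rw [div_le_iff₀ (by positivity)] at hGl
      linarith
    have h9 : (x : ℝ) / L ^ (U + 5) = x / L ^ U * (1 / L ^ 5) := by rw [pow_add]; field_simp
    have h10 : (1 : ℝ) / L ^ 5 ≤ (1 / 2) * G := by
      rw [div_le_iff₀ (by positivity)]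
      have h11 : (1024 : ℝ) ≤ L ^ 2 := by nlinarith
      have h12 : 512 * L ^ 3 * G * 1024 ≤ 512 * L ^ 3 * G * L ^ 2 := mul_le_mul_of_nonneg_left h11 (by positivity)
      nlinarith
    rw [h9]
    calc x / L ^ U * (1 / L ^ 5) ≤ x / L ^ U * ((1 / 2) * G) := mul_le_mul_of_nonneg_left h10 (by positivity)
      _ = _ := by ring
  linarith

/-- **The Hardy-Littlewood formula for almost all pairs.** -/
theorem final (U K : ℕ) : ∃ C x0 : ℕ, ∀ x : ℕ, x0 ≤ x → ∀ D B : ℕ, Real.log x ^ C ≤ D → (D : ℝ) ≤ (x : ℝ) ^ K →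
    (D : ℝ) * x ≤ B * Real.log x ^ K → (B : ℝ) ≤ D * x * Real.log x ^ K → ∀ c : ℤ, c ≠ 0 → |c| ^ 30 ≤ (x : ℤ) →
    ∃ Bad ⊆ Icc 1 D ×ˢ Icc 1 B, (#Bad : ℝ) ≤ D * B / Real.log x ^ U ∧
      ∀ a ∈ Icc 1 D, ∀ b ∈ Icc 1 B, (a, b) ∉ Bad → Admissible a b c →
        ∃ S : ℝ, 0 < S ∧ Tendsto (fun z => cutC a b c z) atTop (𝓝 S) ∧ ∀ u v : ℕ, u < v → v ≤ x →
          |(#((Ioc u v).filter (fun m : ℕ => ((a : ℤ) * (m : ℤ) ^ 2 + b * m + c).toNat.Prime)) : ℝ) -
            eps a b * S * gcdProd a b * ∑ m ∈ Ioc u v, 1 / Real.log ((a : ℝ) * m ^ 2 + b * m + c)| ≤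
          eps a b * S * gcdProd a b * x / Real.log x ^ U := by
  classical
  obtain ⟨C1, E1, hth⟩ := theta 2 (U + 5) K le_rfl
  obtain ⟨E0, htb⟩ := tail_box (U + 2) K
  obtain ⟨E, hE⟩ : ∃ E, E = max E1 E0 + U + 4 := ⟨_, rfl⟩
  have hEE1 : E1 + 1 ≤ E := by rw [hE]; have := le_max_left E1 E0; omega
  have hEE0 : E0 ≤ E := by rw [hE]; have := le_max_right E1 E0; omega
  obtain ⟨x1, h1⟩ := hth E
  obtain ⟨x2, h2⟩ := htb E hEE0
  obtain ⟨x3, h3⟩ := Vz_inv_small E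
  obtain ⟨x4, h4⟩ := evt_root 2 (U + K) (by norm_num) 64
  obtain ⟨x5, h5⟩ := evt_root 1 K (by norm_num) 1
  have hlim : Filter.Tendsto (fun N : ℕ => Real.log (N : ℝ)) Filter.atTop Filter.atTop :=
    Real.tendsto_log_atTop.comp (tendsto_natCast_atTop_atTop (R := ℝ))
  obtain ⟨x6, h6⟩ := eventually_atTop.1 (hlim.eventually_ge_atTop (32 * K + 80))
  refine ⟨C1 + K, max (max (max x1 x2) (max x3 x4)) (max (max x5 x6) 2), fun x hx D B hD1 hD2 hDB hBD c hc hcx => ?_⟩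
  have b1 := h1 x (le_trans (le_trans (le_trans (le_max_left _ _) (le_max_left _ _)) (le_max_left _ _)) hx)
  have b2 := h2 x (le_trans (le_trans (le_trans (le_max_right _ _) (le_max_left _ _)) (le_max_left _ _)) hx)
  have b3 := h3 x (le_trans (le_trans (le_trans (le_max_left _ _) (le_max_right _ _)) (le_max_left _ _)) hx)
  have b4 := h4 x (le_trans (le_trans (le_trans (le_max_right _ _) (le_max_right _ _)) (le_max_left _ _)) hx)
  have b5 := h5 x (le_trans (le_trans (le_trans (le_max_left _ _) (le_max_left _ _)) (le_max_right _ _)) hx)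
  have b6 := h6 x (le_trans (le_trans (le_trans (le_max_right _ _) (le_max_left _ _)) (le_max_right _ _)) hx)
  have hx2 : 2 ≤ x := le_trans (le_trans (le_max_right _ _) (le_max_right _ _)) hx
  set L := Real.log x with hL
  have hx0 : (0 : ℝ) < x := by exact_mod_cast (by omega : 0 < x)
  have hx1 : (1 : ℝ) ≤ x := by exact_mod_cast (by omega : 1 ≤ x)
  have hK0 : (0 : ℝ) ≤ K := Nat.cast_nonneg _
  have hL80 : 80 ≤ L := by linarith
  have hLK : 32 * (K : ℝ) ≤ L := by linarith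
  have hL0 : 0 < L := by linarith
  have hL1 : 1 ≤ L := by linarith
  have hLp : ∀ k : ℕ, 0 < L ^ k := fun k => by positivity
  have hLp1 : ∀ k : ℕ, 1 ≤ L ^ k := fun k => one_le_pow₀ hL1
  have hLL : ∀ {i j : ℕ}, i ≤ j → L ^ i ≤ L ^ j := fun h => pow_le_pow_right₀ hL1 h
  -- the level
  obtain ⟨z, hz⟩ : ∃ z, z = ⌊L ^ E⌋₊ := ⟨_, rfl⟩
  have hz2 : (z : ℝ) ≤ L ^ E := by rw [hz]; exact Nat.floor_le (hLp E).le
  have hz1 : L ^ E ≤ 2 * z := by
    have h7 := Nat.lt_floor_add_one (L ^ E)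
    rw [← hz] at h7
    have h8 : L ≤ L ^ E := le_self_pow₀ hL1 (by omega)
    have h9 : (1 : ℝ) ≤ z := by
      have : 1 ≤ z := by
        rw [hz, Nat.one_le_floor_iff]
        exact hLp1 E
      exact_mod_cast this
    linarith
  have hzE1 : L ^ E1 ≤ z := by
    have h7 : L ^ (E1 + 1) ≤ L ^ E := hLL hEE1
    rw [pow_succ] at h7
    have h8 : L ^ E1 * 2 ≤ L ^ E1 * L := mul_le_mul_of_nonneg_left (by linarith) (hLp _).le
    linarith
  have hzU : L ^ (U + 4) ≤ 2 * z := (hLL (by omega)).trans hz1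
  have hz0 : (0 : ℝ) < z := by
    have := hLp (U + 4)
    linarith
  have hz22 : 2 ≤ z := by
    have h8 : L ≤ L ^ (U + 4) := le_self_pow₀ hL1 (by omega)
    have : (2 : ℝ) ≤ z := by linarith
    exact_mod_cast this
  -- sizes
  have hD1K : L ^ K ≤ D := (hLL (by omega)).trans hD1
  have hD1C : L ^ C1 ≤ D := (hLL (by omega)).trans hD1
  have hD1r : (1 : ℝ) ≤ D := (hLp1 K).trans hD1K
  have hDn : 1 ≤ D := by exact_mod_cast hD1r
  have hD0 : (0 : ℝ) < D := by linarith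
  have hxB : x ≤ B := by
    have h7 : (x : ℝ) * L ^ K ≤ B * L ^ K := by
      calc (x : ℝ) * L ^ K ≤ x * D := mul_le_mul_of_nonneg_left hD1K hx0.le
        _ = D * x := mul_comm _ _
        _ ≤ _ := hDB
    exact_mod_cast le_of_mul_le_mul_right h7 (hLp K)
  have hB0 : (0 : ℝ) < B := by exact_mod_cast (by omega : 0 < B)
  have hLx : L ^ K ≤ x := by
    rw [one_mul] at b5
    simpa using b5
  have hBx : (B : ℝ) ≤ (x : ℝ) ^ (K + 2) := by
    calc (B : ℝ) ≤ D * x * L ^ K := hBD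
      _ ≤ (x : ℝ) ^ K * x * x := by gcongr
      _ = _ := by ring
  have hc0 : 1 ≤ |c| := Int.one_le_abs hc
  have hcr : (1 : ℝ) ≤ ((|c| : ℤ) : ℝ) := by exact_mod_cast hc0
  -- `|c| ≤ √x`
  set t : ℝ := (x : ℝ) ^ ((1 : ℝ) / (2 : ℕ)) with ht
  have ht0 : 0 < t := Real.rpow_pos_of_pos hx0 _
  have ht2 : t ^ 2 = x := by
    rw [ht, ← Real.rpow_natCast, ← Real.rpow_mul hx0.le]
    norm_num
  have hct : ((|c| : ℤ) : ℝ) ≤ t := by
    have h7 : (((|c| : ℤ) : ℝ)) ^ 2 ≤ t ^ 2 := by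
      rw [ht2]
      calc (((|c| : ℤ) : ℝ)) ^ 2 ≤ (((|c| : ℤ) : ℝ)) ^ 30 := pow_le_pow_right₀ hcr (by norm_num)
        _ ≤ x := by exact_mod_cast hcx
    exact le_of_pow_le_pow_left₀ (by norm_num) ht0.le h7
  -- the exceptional sets
  obtain ⟨Bad1, hB1s, hB1c, hB1⟩ := b1 z hzE1 hz2 D B hD1C hD2 hDB hBD 0 (by simp) (by
    intro m _
    simp only [Polynomial.eval_zero, abs_zero, Int.cast_zero]
    positivity) c hc (by
      have h7 : t ≤ x := by
        rw [← ht2, sq]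
        exact le_mul_of_one_le_right ht0.le (by
          have : (1 : ℝ) ≤ t := hcr.trans hct
          exact this)
      have h8 : (x : ℝ) * 1 ≤ x * (B * L ^ K) := by
        apply mul_le_mul_of_nonneg_left _ hx0.le
        have h9 : (1 : ℝ) ≤ B := by exact_mod_cast (by omega : 1 ≤ B)
        exact one_le_mul_of_one_le_of_one_le h9 (hLp1 K)
      calc ((|c| : ℤ) : ℝ) ≤ t := hct
        _ ≤ x := h7
        _ ≤ x * (B * L ^ K) := by linarith
        _ = B * x * L ^ K := by ring)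
  obtain ⟨Bad4, hB4s, hB4c, hB4⟩ := b2 z hz1 hz2 D B hDn hD2 hxB hBx c hc hcx
  set Bad2 := (Icc 1 D ×ˢ Icc 1 B).filter (fun ab : ℕ × ℕ => ∃ p : ℕ, p.Prime ∧ z < p ∧ p ∣ ab.1 ∧ p ∣ ab.2) with hBad2
  have hB2c : (#Bad2 : ℝ) ≤ D * B / z := big_gcd_card D B z (by omega)
  obtain ⟨b₀, hb₀⟩ : ∃ b₀ : ℕ, b₀ = 13 * c.natAbs * D := ⟨_, rfl⟩
  set Bad3 := Icc 1 D ×ˢ Icc 1 b₀ with hBad3
  have hcn : (|c| : ℤ) = (c.natAbs : ℤ) := (Int.natCast_natAbs c).symm
  have hcnr : ((c.natAbs : ℕ) : ℝ) = ((|c| : ℤ) : ℝ) := Nat.cast_natAbs c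
  have hB3c : (#Bad3 : ℝ) ≤ D * B / (4 * L ^ U) := by
    have hcard : #Bad3 = D * b₀ := by
      rw [hBad3, card_product, Nat.card_Icc, Nat.card_Icc, Nat.add_sub_cancel, Nat.add_sub_cancel]
    rw [hcard, hb₀]
    push_cast
    rw [mul_div_assoc]
    apply mul_le_mul_of_nonneg_left _ hD0.le
    rw [le_div_iff₀ (by positivity), hcnr]
    have h8 : ((|c| : ℤ) : ℝ) * (64 * L ^ (U + K)) ≤ x := by
      rw [← ht2, sq]
      exact mul_le_mul hct b4 (by positivity) ht0.le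
    have h9 : (13 * ((|c| : ℤ) : ℝ) * D * (4 * L ^ U)) * L ^ K ≤ B * L ^ K := by
      calc (13 * ((|c| : ℤ) : ℝ) * D * (4 * L ^ U)) * L ^ K = 52 * (((|c| : ℤ) : ℝ) * L ^ (U + K) * D) := by
            rw [pow_add]; ring
        _ ≤ 64 * (((|c| : ℤ) : ℝ) * L ^ (U + K) * D) := by
            have : 0 ≤ ((|c| : ℤ) : ℝ) * L ^ (U + K) * D := by positivity
            linarith
        _ = (((|c| : ℤ) : ℝ) * (64 * L ^ (U + K))) * D := by ring
        _ ≤ x * D := mul_le_mul_of_nonneg_right h8 hD0.le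
        _ = D * x := mul_comm _ _
        _ ≤ _ := hDB
    exact le_of_mul_le_mul_right h9 (hLp K)
  have hDB0 : (0 : ℝ) ≤ D * B := by positivity
  have hsmall : ∀ y : ℝ, 0 ≤ y → y / L ^ (U + 5) ≤ y / (4 * L ^ U) := by
    intro y hy
    apply div_le_div_of_nonneg_left hy (by positivity)
    rw [pow_add, mul_comm 4]
    apply mul_le_mul_of_nonneg_left _ (hLp U).le
    have : L ≤ L ^ 5 := le_self_pow₀ hL1 (by norm_num)
    linarith
  refine ⟨(Bad1 ∪ Bad4) ∪ (Bad2 ∪ (Icc 1 D ×ˢ Icc 1 B).filter (fun ab => ab ∈ Bad3)), ?_, ?_, ?_⟩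
  · apply union_subset (union_subset hB1s hB4s)
    exact union_subset (filter_subset _ _) (filter_subset _ _)
  · have h7 : (#((Bad1 ∪ Bad4) ∪ (Bad2 ∪ (Icc 1 D ×ˢ Icc 1 B).filter (fun ab => ab ∈ Bad3))) : ℝ) ≤
        (#Bad1 + #Bad4) + (#Bad2 + #Bad3) := by
      have g1 := card_union_le Bad1 Bad4
      have g2 := card_union_le Bad2 ((Icc 1 D ×ˢ Icc 1 B).filter (fun ab => ab ∈ Bad3))
      have g3 := card_union_le (Bad1 ∪ Bad4) (Bad2 ∪ (Icc 1 D ×ˢ Icc 1 B).filter (fun ab => ab ∈ Bad3))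
      have g4 : #((Icc 1 D ×ˢ Icc 1 B).filter (fun ab => ab ∈ Bad3)) ≤ #Bad3 :=
        card_le_card (fun ab hab => (mem_filter.1 hab).2)
      exact_mod_cast (by omega : #((Bad1 ∪ Bad4) ∪ (Bad2 ∪ (Icc 1 D ×ˢ Icc 1 B).filter (fun ab => ab ∈ Bad3))) ≤
        (#Bad1 + #Bad4) + (#Bad2 + #Bad3))
    refine h7.trans ?_
    have h8 := hsmall (D * B) hDB0
    have h9 : (D : ℝ) * B / (4 * L ^ (U + 2)) ≤ D * B / (4 * L ^ U) := by
      apply div_le_div_of_nonneg_left hDB0 (by positivity)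
      have := hLL (show U ≤ U + 2 by omega)
      linarith
    have h10 : (D : ℝ) * B / z ≤ D * B / (4 * L ^ U) := by
      apply div_le_div_of_nonneg_left hDB0 (by positivity)
      have h11 : L ^ U * 8 ≤ L ^ U * L ^ 4 := by
        apply mul_le_mul_of_nonneg_left _ (hLp U).le
        have : L ≤ L ^ 4 := le_self_pow₀ hL1 (by norm_num)
        linarith
      rw [← pow_add] at h11
      linarith
    have h11 : (D : ℝ) * B / L ^ U = 4 * (D * B / (4 * L ^ U)) := by field_simp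
    rw [h11]
    linarith
  · intro a ha b hb hab hadm
    simp only [mem_union, mem_filter, not_or, not_and] at hab
    obtain ⟨⟨n1, n4⟩, n2, n3⟩ := hab
    have hab' : (a, b) ∈ Icc 1 D ×ˢ Icc 1 B := mem_product.2 ⟨ha, hb⟩
    have n3' := n3 hab'
    have hab2 : NoBig a b z := by
      intro p hp hzp hpd
      apply n2
      rw [hBad2, mem_filter]
      exact ⟨hab', p, hp, hzp, by exact_mod_cast hpd.1, by exact_mod_cast hpd.2⟩
    have hbb : b₀ < b := by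
      by_contra hcon
      push Not at hcon
      apply n3'
      rw [hBad3, mem_product, mem_Icc, mem_Icc]
      rw [mem_Icc] at ha hb
      exact ⟨ha, hb.1, hcon⟩
    have hbz : 13 * |c| * D < (b : ℤ) := by
      have h7 : ((b₀ : ℕ) : ℤ) < b := by exact_mod_cast hbb
      have h8 : ((b₀ : ℕ) : ℤ) = 13 * |c| * D := by
        rw [hb₀, hcn]
        push_cast
        ring
      linarith
    have hDz : (1 : ℤ) ≤ D := by exact_mod_cast hDn
    have hcD : |c| ≤ |c| * D := le_mul_of_one_le_right (by positivity) hDz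
    have hb8 : 8 * |c| * D ≤ (b : ℤ) := by nlinarith
    have hb4 : |c| + 4 ≤ (b : ℤ) := by nlinarith
    obtain ⟨-, hSJ⟩ := hB4 a ha b hb n4 hb8
    rw [mem_Icc] at ha
    have ha0 : (0 : ℝ) < a := by exact_mod_cast ha.1
    refine pair_final U a b c hadm x z L (by linarith) hz22 hab2 hb4 (1 / L ^ (U + 2)) hSJ ?_ (b3 z (by omega) hz2)
      (fun u v huv hvx hm => hB1 a (mem_Icc.2 ha) b hb n1 u v huv hvx hm)
    have hla : Real.log a ≤ K * L := by
      have h7 : (a : ℝ) ≤ (x : ℝ) ^ K := by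
        have : (a : ℝ) ≤ D := by exact_mod_cast ha.2
        exact this.trans hD2
      have h8 := Real.log_le_log ha0 h7
      rwa [Real.log_pow] at h8
    have hla0 : 0 ≤ Real.log a := Real.log_nonneg (by exact_mod_cast ha.1)
    have h7 : (5 : ℝ) / z + 4 * Real.log a / z ≤ 1 / (8 * L ^ U) := by
      rw [← add_div, div_le_div_iff₀ hz0 (by positivity), one_mul]
      have h8 : (5 + 4 * Real.log a) ≤ L * L / 8 := by
        have : 4 * (K * L) ≤ L * L / 8 := by nlinarith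
        nlinarith
      have h9 : (5 + 4 * Real.log a) * (8 * L ^ U) ≤ (L * L / 8) * (8 * L ^ U) := mul_le_mul_of_nonneg_right h8 (by positivity)
      have h10 : (L * L / 8) * (8 * L ^ U) * 2 ≤ L ^ (U + 4) := by
        have e : L ^ (U + 4) = (L * L / 8) * (8 * L ^ U) * (L * L) := by rw [pow_add]; ring
        rw [e]
        apply mul_le_mul_of_nonneg_left _ (by positivity)
        nlinarith
      linarith
    have h8 : (1 : ℝ) / L ^ (U + 2) ≤ 1 / (8 * L ^ U) := by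
      apply one_div_le_one_div_of_le (by positivity)
      rw [pow_add, mul_comm 8]
      apply mul_le_mul_of_nonneg_left _ (hLp U).le
      nlinarith
    have h9 : (1 : ℝ) / (4 * L ^ U) = 1 / (8 * L ^ U) + 1 / (8 * L ^ U) := by field_simp; norm_num
    linarith

end Pool.Agent.Y868.TB
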