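import Pool.Agent.Y868.TB.T4

/-! The two families of discriminants: `a` fixed, and `b` fixed. -/

set_option autoImplicit false

namespace Pool.Agent.Y868.TB
open Finset Filter Topology
open Pool.Agent.W468.ConjF
open Pool.Agent.W218.HF (low_count_b pell_count periodic_sum')

/-- a complete linear sum -/
lemma lin_sum (q : ℕ) (hqp : q.Prime) (hq : q ≠ 2) (α β : ℤ) (hβ : ¬ (q : ℤ) ∣ β) :
    ∑ v ∈ range q, jacobiSym (α + β * v) q = 0 := by
  have : Fact q.Prime := ⟨hqp⟩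
  have h1 : ∀ v : ℕ, jacobiSym (α + β * v) q =
      quadraticChar (ZMod q) ((α : ZMod q) + β * (v : ZMod q)) := by
    intro v
    rw [← jacobiSym.legendreSym.to_jacobiSym, legendreSym]
    push_cast
    rfl
  simp_rw [h1]
  have h2 : ∑ v ∈ range q, quadraticChar (ZMod q) ((α : ZMod q) + β * (v : ZMod q)) =
      ∑ y : ZMod q, quadraticChar (ZMod q) ((α : ZMod q) + β * y) := by
    symm
    refine Finset.sum_bij' (fun a _ => a.val) (fun d _ => (d : ZMod q)) ?_ ?_ ?_ ?_ ?_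
    · intro a _; exact mem_range.2 (ZMod.val_lt a)
    · intro d _; exact mem_univ _
    · intro a _; exact ZMod.natCast_zmod_val a
    · intro d hd; exact ZMod.val_cast_of_lt (mem_range.1 hd)
    · intro a _; rw [ZMod.natCast_zmod_val]
  rw [h2]
  have hβ' : (β : ZMod q) ≠ 0 := by
    rw [Ne, ZMod.intCast_zmod_eq_zero_iff_dvd]; exact hβ
  have hb : Function.Bijective (fun y : ZMod q => (α : ZMod q) + β * y) := by
    constructor
    · intro y y' h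
      exact mul_left_cancel₀ hβ' (add_left_cancel h)
    · intro w
      refine ⟨(w - α) * (β : ZMod q)⁻¹, ?_⟩
      field_simp
      ring
  rw [hb.sum_comp (fun y => quadraticChar (ZMod q) y)]
  apply quadraticChar_sum_zero
  rw [ZMod.ringChar_zmod_n]
  exact hq

/-- the complete sum for two primes -/
lemma lin_pair (p q : ℕ) (hp : p.Prime) (hq : q.Prime) (hq2 : q ≠ 2) (hpq : p ≠ q) (α β : ℤ)
    (hqn : ¬ (q : ℤ) ∣ β) :
    ∑ c ∈ range (p * q), jacobiSym (α + β * (c : ℤ)) p * jacobiSym (α + β * (c : ℤ)) q = 0 := by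
  rw [sum_range_mul' (fun c => jacobiSym (α + β * (c : ℤ)) p * jacobiSym (α + β * (c : ℤ)) q), sum_comm]
  apply sum_eq_zero
  intro u _
  have h1 : ∀ v ∈ range q, jacobiSym (α + β * ((p * v + u : ℕ) : ℤ)) p * jacobiSym (α + β * ((p * v + u : ℕ) : ℤ)) q =
      jacobiSym (α + β * u) p * jacobiSym ((α + β * u) + (β * p) * v) q := by
    intro v _
    have e1 : α + β * ((p * v + u : ℕ) : ℤ) = (α + β * u) + p * (β * v) := by push_cast; ring
    have e2 : α + β * ((p * v + u : ℕ) : ℤ) = (α + β * u) + (β * p) * v := by push_cast; ring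
    rw [← e2, e1, js_per]
  rw [sum_congr rfl h1, ← mul_sum, lin_sum q hq hq2, mul_zero]
  intro h2
  rcases (Nat.prime_iff_prime_int.1 hq).dvd_or_dvd h2 with h | h
  · exact hqn h
  · have := (Nat.prime_dvd_prime_iff_eq hq hp).1 (by exact_mod_cast h)
    exact hpq this.symm

theorem second_moment_lin (α β : ℤ) (P : Finset ℕ) (z Z H : ℕ) (hz : 1 ≤ z)
    (hP : ∀ p ∈ P, p.Prime ∧ p ≠ 2 ∧ z < p ∧ p ≤ Z ∧ ¬ (p : ℤ) ∣ β) :
    ∑ c ∈ range H, (∑ p ∈ P, (jacobiSym (α + β * (c : ℤ)) p : ℝ) / p) ^ 2 ≤ 2 * (H / z) + (Z : ℝ) ^ 2 := by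
  classical
  have h1 : ∑ c ∈ range H, (∑ p ∈ P, (jacobiSym (α + β * (c : ℤ)) p : ℝ) / p) ^ 2 =
      ∑ p ∈ P, ∑ q ∈ P, (∑ c ∈ range H, (jacobiSym (α + β * (c : ℤ)) p : ℝ) * (jacobiSym (α + β * (c : ℤ)) q : ℝ)) / (p * q) := by
    simp_rw [sq (∑ p ∈ P, _), sum_mul_sum]
    rw [sum_comm]
    apply sum_congr rfl
    intro p _
    rw [sum_comm]
    apply sum_congr rfl
    intro q _
    rw [sum_div]
    apply sum_congr rfl
    intro c _
    rw [div_mul_div_comm]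
  rw [h1]
  have h2 : ∀ p ∈ P, ∀ q ∈ P, (∑ c ∈ range H, (jacobiSym (α + β * (c : ℤ)) p : ℝ) * (jacobiSym (α + β * (c : ℤ)) q : ℝ)) / (p * q) ≤
      (if p = q then (H : ℝ) * (1 / (p : ℝ) ^ 2) else 0) + ((H : ℝ) * ((1 / (p : ℝ) ^ 2) * (1 / (q : ℝ) ^ 2)) + 1) := by
    intro p hp q hq
    obtain ⟨hpp, hp2, hzp, hpZ, hpβ⟩ := hP p hp
    obtain ⟨hqp, hq2, hzq, hqZ, hqβ⟩ := hP q hq
    have hp0 : (0 : ℝ) < p := by exact_mod_cast hpp.pos
    have hq0 : (0 : ℝ) < q := by exact_mod_cast hqp.pos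
    by_cases hpq : p = q
    · subst hpq
      rw [if_pos rfl]
      have h3 : ∑ c ∈ range H, (jacobiSym (α + β * (c : ℤ)) p : ℝ) * (jacobiSym (α + β * (c : ℤ)) p : ℝ) ≤ H := by
        calc ∑ c ∈ range H, (jacobiSym (α + β * (c : ℤ)) p : ℝ) * (jacobiSym (α + β * (c : ℤ)) p : ℝ) ≤ ∑ c ∈ range H, (1 : ℝ) := by
              apply sum_le_sum
              intro c _
              rw [← sq, sq_le_one_iff_abs_le_one]
              exact js_abs _ _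
          _ = H := by simp
      have h4 : (∑ c ∈ range H, (jacobiSym (α + β * (c : ℤ)) p : ℝ) * (jacobiSym (α + β * (c : ℤ)) p : ℝ)) / (p * p) ≤
          (H : ℝ) * (1 / (p : ℝ) ^ 2) := by
        rw [mul_one_div, sq]
        exact div_le_div_of_nonneg_right h3 (by positivity)
      have h5 : 0 ≤ (H : ℝ) * ((1 / (p : ℝ) ^ 2) * (1 / (p : ℝ) ^ 2)) := by positivity
      linarith
    · rw [if_neg hpq, zero_add]
      have h3 := periodic_sum' (fun c => (jacobiSym (α + β * (c : ℤ)) p : ℝ) * (jacobiSym (α + β * (c : ℤ)) q : ℝ)) (p * q)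
        (Nat.mul_pos hpp.pos hqp.pos) ?_ ?_ 0 ?_ (by norm_num) H
      · push_cast at h3
        rw [div_le_iff₀ (by positivity)]
        refine (le_abs_self _).trans (h3.trans (le_of_eq ?_))
        field_simp
      · intro x
        rw [abs_mul]
        exact mul_le_one₀ (js_abs _ _) (abs_nonneg _) (js_abs _ _)
      · intro x
        have e1 : α + β * ((x + p * q : ℕ) : ℤ) = (α + β * (x : ℤ)) + p * (β * q) := by push_cast; ring
        have e2 : α + β * ((x + p * q : ℕ) : ℤ) = (α + β * (x : ℤ)) + q * (β * p) := by push_cast; ring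
        have e3 : jacobiSym (α + β * ((x + p * q : ℕ) : ℤ)) p = jacobiSym (α + β * (x : ℤ)) p := by rw [e1, js_per]
        have e4 : jacobiSym (α + β * ((x + p * q : ℕ) : ℤ)) q = jacobiSym (α + β * (x : ℤ)) q := by rw [e2, js_per]
        simp only [e3, e4]
      · have h4 := lin_pair p q hpp hqp hq2 hpq α β hqβ
        exact_mod_cast h4
  calc ∑ p ∈ P, ∑ q ∈ P, (∑ c ∈ range H, (jacobiSym (α + β * (c : ℤ)) p : ℝ) * (jacobiSym (α + β * (c : ℤ)) q : ℝ)) / (p * q)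
      ≤ ∑ p ∈ P, ∑ q ∈ P, ((if p = q then (H : ℝ) * (1 / (p : ℝ) ^ 2) else 0) +
          ((H : ℝ) * ((1 / (p : ℝ) ^ 2) * (1 / (q : ℝ) ^ 2)) + 1)) :=
        sum_le_sum fun p hp => sum_le_sum fun q hq => h2 p hp q hq
    _ = (H : ℝ) * ∑ p ∈ P, 1 / (p : ℝ) ^ 2 + ((H : ℝ) * (∑ p ∈ P, 1 / (p : ℝ) ^ 2) ^ 2 + (#P : ℝ) ^ 2) := by
        simp_rw [sum_add_distrib]
        congr 1
        · rw [mul_sum]
          apply sum_congr rfl
          intro p hp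
          rw [sum_ite_eq, if_pos hp]
        · congr 1
          · rw [sq (∑ p ∈ P, _), sum_mul_sum, mul_sum]
            apply sum_congr rfl
            intro p _
            rw [mul_sum]
          · simp [sq]
    _ ≤ 2 * (H / z) + (Z : ℝ) ^ 2 := by
        have hsub : P ⊆ Ioc z Z := by
          intro p hp
          rw [mem_Ioc]
          exact ⟨(hP p hp).2.2.1, (hP p hp).2.2.2.1⟩
        have hcard : (#P : ℝ) ≤ Z := by
          have := card_le_card hsub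
          rw [Nat.card_Ioc] at this
          exact_mod_cast this.trans (Nat.sub_le _ _)
        have hz1 : (1 : ℝ) ≤ z := by exact_mod_cast hz
        have h5 : ∑ p ∈ P, 1 / (p : ℝ) ^ 2 ≤ 1 / (z : ℝ) := by
          rcases P.eq_empty_or_nonempty with h | ⟨p, hp⟩
          · rw [h, sum_empty]; positivity
          · have hzZ : z ≤ Z := by
              have := hP p hp
              omega
            calc ∑ p ∈ P, 1 / (p : ℝ) ^ 2 ≤ ∑ n ∈ Ioc z Z, 1 / (n : ℝ) ^ 2 :=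
                  sum_le_sum_of_subset_of_nonneg hsub (fun _ _ _ => by positivity)
              _ ≤ 1 / (z : ℝ) - 1 / (Z : ℝ) := sum_inv_sq z Z hz hzZ
              _ ≤ 1 / (z : ℝ) := by
                  have : (0 : ℝ) ≤ 1 / (Z : ℝ) := by positivity
                  linarith
        have h50 : 0 ≤ ∑ p ∈ P, 1 / (p : ℝ) ^ 2 := sum_nonneg fun _ _ => by positivity
        have h51 : 1 / (z : ℝ) ≤ 1 := by rw [div_le_one (by linarith)]; exact hz1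
        have h6 : (H : ℝ) * ∑ p ∈ P, 1 / (p : ℝ) ^ 2 ≤ H * (1 / (z : ℝ)) := mul_le_mul_of_nonneg_left h5 (by positivity)
        have h8 : (∑ p ∈ P, 1 / (p : ℝ) ^ 2) ^ 2 ≤ 1 / (z : ℝ) := by
          calc (∑ p ∈ P, 1 / (p : ℝ) ^ 2) ^ 2 = (∑ p ∈ P, 1 / (p : ℝ) ^ 2) * (∑ p ∈ P, 1 / (p : ℝ) ^ 2) := sq _
            _ ≤ (1 / (z : ℝ)) * 1 := mul_le_mul h5 (h5.trans h51) h50 (by positivity)
            _ = 1 / (z : ℝ) := mul_one _
        have h9 : (H : ℝ) * (∑ p ∈ P, 1 / (p : ℝ) ^ 2) ^ 2 ≤ H * (1 / (z : ℝ)) := mul_le_mul_of_nonneg_left h8 (by positivity)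
        have h7 : (#P : ℝ) ^ 2 ≤ (Z : ℝ) ^ 2 := pow_le_pow_left₀ (by positivity) hcard 2
        rw [mul_one_div] at h6 h9
        linarith

/-- few `a` with a large sum -/
theorem low_count_lin (α β : ℤ) (P : Finset ℕ) (z Z H : ℕ) (hz : 1 ≤ z)
    (hP : ∀ p ∈ P, p.Prime ∧ p ≠ 2 ∧ z < p ∧ p ≤ Z ∧ ¬ (p : ℤ) ∣ β) (τ : ℝ) (hτ : 0 < τ) :
    (#((range H).filter (fun c : ℕ => τ < |∑ p ∈ P, (jacobiSym (α + β * (c : ℤ)) p : ℝ) / p|)) : ℝ) ≤
      (2 * (H / z) + (Z : ℝ) ^ 2) / τ ^ 2 := by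
  rw [le_div_iff₀ (by positivity)]
  refine le_trans ?_ (second_moment_lin α β P z Z H hz hP)
  calc (#((range H).filter (fun c : ℕ => τ < |∑ p ∈ P, (jacobiSym (α + β * (c : ℤ)) p : ℝ) / p|)) : ℝ) * τ ^ 2
      = ∑ c ∈ (range H).filter (fun c : ℕ => τ < |∑ p ∈ P, (jacobiSym (α + β * (c : ℤ)) p : ℝ) / p|), τ ^ 2 := by
        rw [sum_const, nsmul_eq_mul]
    _ ≤ ∑ c ∈ (range H).filter (fun c : ℕ => τ < |∑ p ∈ P, (jacobiSym (α + β * (c : ℤ)) p : ℝ) / p|),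
        (∑ p ∈ P, (jacobiSym (α + β * (c : ℤ)) p : ℝ) / p) ^ 2 := by
        apply sum_le_sum
        intro c hc
        rw [mem_filter] at hc
        rw [← sq_abs (∑ p ∈ P, (jacobiSym (α + β * (c : ℤ)) p : ℝ) / p)]
        exact pow_le_pow_left₀ hτ.le hc.2.le 2
    _ ≤ _ := sum_le_sum_of_subset_of_nonneg (filter_subset _ _) (fun _ _ _ => sq_nonneg _)

/-- the kernels of `b² - 4 a c` for different `a` are different -/
lemma kernel_inj (b : ℤ) (c : ℤ) (D : ℕ) (hc : c ≠ 0) (hb : 8 * |c| * D ≤ b) (d : ℤ) (a₁ a₂ : ℕ) (s₁ s₂ : ℕ)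
    (h1 : 1 ≤ a₁) (h12 : a₁ < a₂) (h2 : a₂ ≤ D) (e1 : b ^ 2 - 4 * a₁ * c = d * (s₁ : ℤ) ^ 2)
    (e2 : b ^ 2 - 4 * a₂ * c = d * (s₂ : ℤ) ^ 2) : False := by
  have hc0 : 1 ≤ |c| := Int.one_le_abs hc
  have hc1 : c ≤ |c| := le_abs_self c
  have hc2 : -|c| ≤ c := neg_abs_le c
  have hD1 : (1 : ℤ) ≤ D := by exact_mod_cast (by omega : 1 ≤ D)
  have hA : ∀ a : ℕ, a ≤ D → |4 * (a : ℤ) * c| ≤ 4 * |c| * D := by
    intro a ha
    have ha' : (a : ℤ) ≤ D := by exact_mod_cast ha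
    rw [abs_mul, abs_mul, abs_of_pos (by norm_num : (0 : ℤ) < 4), abs_of_nonneg (by positivity : (0 : ℤ) ≤ a)]
    have : (a : ℤ) * |c| ≤ D * |c| := mul_le_mul_of_nonneg_right ha' (by linarith)
    linarith
  have hcD : 1 ≤ |c| * D := by
    have := mul_le_mul hc0 hD1 (by norm_num) (by linarith)
    linarith
  have hb1 : 8 ≤ b := by nlinarith
  have hbb : 8 * (4 * |c| * D) ≤ b ^ 2 := by nlinarith
  have hf : ∀ a : ℕ, a ≤ D → b ^ 2 ≤ 2 * (b ^ 2 - 4 * a * c) := by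
    intro a ha
    have := (abs_le.1 (hA a ha)).2
    nlinarith
  have f1 := hf a₁ (by omega)
  have f2 := hf a₂ h2
  rw [e1] at f1
  rw [e2] at f2
  have hb2 : 0 < b ^ 2 := by positivity
  have hd : 0 < d := by
    by_contra hcon
    push Not at hcon
    have : d * (s₁ : ℤ) ^ 2 ≤ 0 := mul_nonpos_of_nonpos_of_nonneg hcon (by positivity)
    linarith
  have hds : ∀ s : ℕ, b ^ 2 ≤ 2 * (d * (s : ℤ) ^ 2) → b ≤ 2 * (d * s) := by
    intro s hs
    by_contra hcon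
    push Not at hcon
    have h3 : (0 : ℤ) ≤ d * s := by positivity
    have h4 : (2 * (d * (s : ℤ))) ^ 2 < b ^ 2 := by
      apply pow_lt_pow_left₀ hcon (by linarith) (by norm_num)
    have h5 : d * (s : ℤ) ^ 2 ≤ d * (d * (s : ℤ) ^ 2) := le_mul_of_one_le_left (by positivity) (by linarith)
    nlinarith
  have g1 := hds s₁ f1
  have g2 := hds s₂ f2
  have hdiff : d * ((s₂ : ℤ) ^ 2 - (s₁ : ℤ) ^ 2) = 4 * c * (a₁ - a₂) := by
    have : d * ((s₂ : ℤ) ^ 2 - (s₁ : ℤ) ^ 2) = d * (s₂ : ℤ) ^ 2 - d * (s₁ : ℤ) ^ 2 := by ring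
    rw [this, ← e1, ← e2]; ring
  have hne : (s₂ : ℤ) - s₁ ≠ 0 := by
    intro h
    have h3 : (s₂ : ℤ) = s₁ := by linarith
    rw [h3, sub_self, mul_zero] at hdiff
    have h4 : (a₁ : ℤ) - a₂ ≠ 0 := by
      have : (a₁ : ℤ) < a₂ := by exact_mod_cast h12
      linarith
    have h5 : 4 * c ≠ 0 := by
      intro h; apply hc; linarith
    exact (mul_ne_zero h5 h4) hdiff.symm
  have habs : |d * ((s₂ : ℤ) ^ 2 - (s₁ : ℤ) ^ 2)| = d * (|(s₂ : ℤ) - s₁| * (s₂ + s₁)) := by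
    rw [abs_mul, abs_of_pos hd, show (s₂ : ℤ) ^ 2 - (s₁ : ℤ) ^ 2 = (s₂ - s₁) * (s₂ + s₁) by ring, abs_mul,
      abs_of_nonneg (by positivity : (0 : ℤ) ≤ (s₂ : ℤ) + s₁)]
  have h6 : b ≤ |d * ((s₂ : ℤ) ^ 2 - (s₁ : ℤ) ^ 2)| := by
    rw [habs]
    have h7 : (s₂ : ℤ) + s₁ ≤ |(s₂ : ℤ) - s₁| * (s₂ + s₁) := le_mul_of_one_le_left (by positivity) (Int.one_le_abs hne)
    have h8 := mul_le_mul_of_nonneg_left h7 hd.le
    nlinarith
  have h7 : |d * ((s₂ : ℤ) ^ 2 - (s₁ : ℤ) ^ 2)| ≤ 4 * |c| * D := by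
    rw [hdiff, abs_mul, abs_mul, abs_of_pos (by norm_num : (0 : ℤ) < 4)]
    have h8 : |(a₁ : ℤ) - a₂| ≤ D := by
      rw [abs_le]
      have : (a₁ : ℤ) < a₂ := by exact_mod_cast h12
      have : (a₂ : ℤ) ≤ D := by exact_mod_cast h2
      have : (0 : ℤ) ≤ a₁ := by positivity
      constructor <;> linarith
    exact mul_le_mul_of_nonneg_left h8 (by positivity)
  nlinarith

lemma sol_le_one (b : ℤ) (c : ℤ) (D : ℕ) (hc : c ≠ 0) (hb : 8 * |c| * D ≤ b) (d : ℤ) :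
    #(Sol (fun a : ℕ => b ^ 2 - 4 * a * c) D d) ≤ 1 := by
  classical
  rw [card_le_one]
  intro a₁ h₁ a₂ h₂
  rw [Sol, mem_filter, mem_Icc] at h₁ h₂
  obtain ⟨⟨h3, h4⟩, s₁, e₁⟩ := h₁
  obtain ⟨⟨h5, h6⟩, s₂, e₂⟩ := h₂
  rcases lt_trichotomy a₁ a₂ with h | h | h
  · exact (kernel_inj b c D hc hb d a₁ a₂ s₁ s₂ h3 h h6 e₁ e₂).elim
  · exact h
  · exact (kernel_inj b c D hc hb d a₂ a₁ s₂ s₁ h5 h h4 e₂ e₁).elim

/-- the second family: `b` fixed -/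
theorem tail_a (U E M : ℕ) (hM : 1 ≤ M) : ∃ H₀ : ℕ, ∀ D : ℕ, H₀ ≤ D → ∀ z : ℕ, Real.log D ^ (3 * U + 3) ≤ z →
    (z : ℝ) ≤ Real.log D ^ E → ∀ (b c : ℤ), c ≠ 0 → 8 * |c| * D ≤ b → b ^ 2 + 4 * |c| * D ≤ (D : ℤ) ^ M →
    ∃ Ex : Finset ℕ, (#Ex : ℝ) ≤ D / Real.log D ^ U ∧
      ∀ a ∈ Icc 1 D, a ∉ Ex → ¬ IsSquare (b ^ 2 - 4 * (a : ℤ) * c) ∧
        ∀ᶠ N in atTop, |SJ (b ^ 2 - 4 * (a : ℤ) * c) z N| ≤ 1 / Real.log D ^ U := by
  obtain ⟨H0, h⟩ := tail_gen U E M hM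
  refine ⟨max H0 3, fun D hD z hz1 hz2 b c hc hb hbM => ?_⟩
  have hD3 : 3 ≤ D := (le_max_right _ _).trans hD
  have hDr : (3 : ℝ) ≤ D := by exact_mod_cast hD3
  have hlog : 1 ≤ Real.log D := by
    rw [← Real.log_exp 1]
    apply Real.log_le_log (Real.exp_pos _)
    have := Real.exp_one_lt_d9
    linarith
  have hz1' : 1 ≤ z := by
    have h1 : (1 : ℝ) ≤ Real.log D ^ (3 * U + 3) := one_le_pow₀ hlog
    have : (1 : ℝ) ≤ z := h1.trans hz1
    exact_mod_cast this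
  have hc0 : 1 ≤ |c| := Int.one_le_abs hc
  have hD1 : (1 : ℤ) ≤ D := by exact_mod_cast (by omega : 1 ≤ D)
  have hcD : |c| ≤ |c| * D := le_mul_of_one_le_right (by positivity) hD1
  have key := h D ((le_max_left _ _).trans hD) z hz1 hz2 (fun a : ℕ => b ^ 2 - 4 * (a : ℤ) * c) (-(4 * c))
    (by intro h; apply hc; linarith) ?_ ?_ ?_ 1 zero_le_one ?_ (by linarith)
  · exact key
  · rw [Int.natAbs_neg]
    zify
    rw [abs_mul, abs_of_pos (by norm_num : (0 : ℤ) < 4)]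
    have : 0 ≤ b ^ 2 := sq_nonneg b
    linarith
  · intro a ha
    rw [mem_Icc] at ha
    zify
    have ha' : (a : ℤ) ≤ D := by exact_mod_cast ha.2
    have h1 : |4 * (a : ℤ) * c| ≤ 4 * |c| * D := by
      rw [abs_mul, abs_mul, abs_of_pos (by norm_num : (0 : ℤ) < 4), abs_of_nonneg (by positivity : (0 : ℤ) ≤ a)]
      have : (a : ℤ) * |c| ≤ D * |c| := mul_le_mul_of_nonneg_right ha' (by linarith)
      linarith
    calc |b ^ 2 - 4 * (a : ℤ) * c| ≤ |b ^ 2| + |4 * (a : ℤ) * c| := abs_sub _ _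
      _ ≤ b ^ 2 + 4 * |c| * D := by
          rw [abs_of_nonneg (sq_nonneg b)]; linarith
      _ ≤ _ := hbM
  · intro P Z hP τ hτ
    have e : ∀ a : ℕ, b ^ 2 - 4 * (a : ℤ) * c = b ^ 2 + (-(4 * c)) * (a : ℤ) := by intro a; ring
    simp only [e]
    exact low_count_lin (b ^ 2) (-(4 * c)) P z Z (D + 1) hz1' hP τ hτ
  · intro d
    exact_mod_cast sol_le_one b c D hc hb d

/-- the first family: `a` fixed -/
theorem tail_b (U E : ℕ) : ∃ H₀ : ℕ, ∀ H : ℕ, H₀ ≤ H → ∀ z : ℕ, Real.log H ^ (3 * U + 3) ≤ z →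
    (z : ℝ) ≤ Real.log H ^ E → ∀ n : ℤ, n ≠ 0 → n.natAbs ^ 5 ≤ H →
    ∃ Ex : Finset ℕ, (#Ex : ℝ) ≤ H / Real.log H ^ U ∧
      ∀ b ∈ Icc 1 H, b ∉ Ex → ¬ IsSquare ((b : ℤ) ^ 2 - n) ∧
        ∀ᶠ N in atTop, |SJ ((b : ℤ) ^ 2 - n) z N| ≤ 1 / Real.log H ^ U := by
  classical
  obtain ⟨H0, h⟩ := tail_gen U E 3 (by norm_num)
  obtain ⟨H1, hH1⟩ := evt_root 5 2 (by norm_num) 16
  have hlim : Filter.Tendsto (fun N : ℕ => Real.log (N : ℝ)) Filter.atTop Filter.atTop :=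
    Real.tendsto_log_atTop.comp (tendsto_natCast_atTop_atTop (R := ℝ))
  obtain ⟨H2, hH2⟩ := eventually_atTop.1 (hlim.eventually_ge_atTop 3)
  refine ⟨max (max H0 H1) (max H2 3), fun H hH z hz1 hz2 n hn hnH => ?_⟩
  have b0 := (le_max_left _ _).trans ((le_max_left _ _).trans hH)
  have b1 := hH1 H ((le_max_right _ _).trans ((le_max_left _ _).trans hH))
  have b2 := hH2 H ((le_max_left _ _).trans ((le_max_right _ _).trans hH))
  have hH3 : 3 ≤ H := (le_max_right _ _).trans ((le_max_right _ _).trans hH)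
  have hHr : (3 : ℝ) ≤ H := by exact_mod_cast hH3
  have hH0 : (0 : ℝ) < H := by linarith
  set L := Real.log H with hL
  have hL0 : 0 < L := by linarith
  have hz1' : 1 ≤ z := by
    have h1 : (1 : ℝ) ≤ L ^ (3 * U + 3) := one_le_pow₀ (by linarith)
    have : (1 : ℝ) ≤ z := h1.trans hz1
    exact_mod_cast this
  have hnle : n.natAbs ≤ H := (Nat.le_self_pow (by norm_num) _).trans hnH
  have hn0 : 1 ≤ n.natAbs := Int.natAbs_pos.2 hn
  have hn1 : (1 : ℝ) ≤ n.natAbs := by exact_mod_cast hn0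
  set t : ℝ := (H : ℝ) ^ ((1 : ℝ) / (5 : ℕ)) with ht
  have ht0 : 0 < t := Real.rpow_pos_of_pos hH0 _
  have ht5 : t ^ 5 = H := by
    rw [ht, ← Real.rpow_natCast, ← Real.rpow_mul hH0.le]
    norm_num
  have hnt : (n.natAbs : ℝ) ≤ t := by
    have h1 : (n.natAbs : ℝ) ^ 5 ≤ t ^ 5 := by rw [ht5]; exact_mod_cast hnH
    exact le_of_pow_le_pow_left₀ (by norm_num) ht0.le h1
  refine h H b0 z hz1 hz2 (fun b : ℕ => (b : ℤ) ^ 2 - n) n hn ?_ ?_ ?_
    ((n.natAbs : ℝ) + (n.natAbs : ℝ) ^ 2 * (2 * (Nat.log 2 H + 1))) (by positivity) ?_ ?_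
  · exact hnle.trans (Nat.le_self_pow (by norm_num) _)
  · intro b hb
    rw [mem_Icc] at hb
    calc ((b : ℤ) ^ 2 - n).natAbs ≤ ((b : ℤ) ^ 2).natAbs + n.natAbs := Int.natAbs_sub_le _ _
      _ = b ^ 2 + n.natAbs := by rw [Int.natAbs_pow]; rfl
      _ ≤ H ^ 2 + H ^ 2 := by
          apply add_le_add
          · exact Nat.pow_le_pow_left hb.2 2
          · exact hnle.trans (Nat.le_self_pow (by norm_num) _)
      _ = 2 * H ^ 2 := by ring
      _ ≤ H * H ^ 2 := Nat.mul_le_mul_right _ (by omega)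
      _ = H ^ 3 := by ring
  · intro P Z hP τ hτ
    exact low_count_b n P z Z (H + 1) hz1' hP τ hτ
  · intro d
    have h1 := pell_count n d hn H
    unfold Sol
    exact_mod_cast h1
  · have hl2 : (Nat.log 2 H : ℝ) ≤ 1.5 * L := by
      have h1 : ((2 ^ Nat.log 2 H : ℕ) : ℝ) ≤ H := by exact_mod_cast Nat.pow_log_le_self 2 (by omega)
      push_cast at h1
      have h2 := Real.log_le_log (by positivity) h1
      rw [Real.log_pow] at h2
      exact aux1 _ _ _ (Nat.cast_nonneg _) Real.log_two_gt_d9 h2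
    have h1 : (n.natAbs : ℝ) + (n.natAbs : ℝ) ^ 2 * (2 * (Nat.log 2 H + 1)) ≤ (n.natAbs : ℝ) ^ 2 * (4 * L) := by
      have h3 : (n.natAbs : ℝ) ≤ (n.natAbs : ℝ) ^ 2 := le_self_pow₀ hn1 (by norm_num)
      have h4 : 2 * ((Nat.log 2 H : ℝ) + 1) + 1 ≤ 4 * L := by linarith
      have h5 := mul_le_mul_of_nonneg_left h4 (sq_nonneg (n.natAbs : ℝ))
      linarith
    calc ((n.natAbs : ℝ) + (n.natAbs : ℝ) ^ 2 * (2 * (Nat.log 2 H + 1))) ^ 2 ≤ ((n.natAbs : ℝ) ^ 2 * (4 * L)) ^ 2 :=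
          pow_le_pow_left₀ (by positivity) h1 2
      _ = (n.natAbs : ℝ) ^ 4 * (16 * L ^ 2) := by ring
      _ ≤ t ^ 4 * t := by
          apply mul_le_mul (pow_le_pow_left₀ (by positivity) hnt 4) b1 (by positivity) (by positivity)
      _ = H := by rw [← pow_succ, ht5]

end Pool.Agent.Y868.TB
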