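import Pool.Agent.Y868.TB.T3
import Pool.Agent.Y868.TB.T5

/-! The exceptional pairs for the products. -/

set_option autoImplicit false

namespace Pool.Agent.Y868.TB
open Finset Filter Topology
open Pool.Agent.W468.ConjF

lemma card_mult (n p : ℕ) : (#((Icc 1 n).filter (fun a => p ∣ a)) : ℝ) ≤ n / p := by
  have h := Nat.Ioc_filter_dvd_card_eq_div n p
  have e : Icc 1 n = Ioc 0 n := by ext i; simp only [mem_Icc, mem_Ioc]; omega
  rw [e, h]
  exact Nat.cast_div_le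

open Classical in
/-- few pairs have a common prime factor above `z` -/
lemma big_gcd_card (D B z : ℕ) (hz : 1 ≤ z) :
    (#((Icc 1 D ×ˢ Icc 1 B).filter (fun ab : ℕ × ℕ => ∃ p : ℕ, p.Prime ∧ z < p ∧ p ∣ ab.1 ∧ p ∣ ab.2)) : ℝ) ≤ D * B / z := by
  have hz0 : (0 : ℝ) < z := by exact_mod_cast hz
  rcases Nat.lt_or_ge D z with hDz | hDz
  · have h0 : (Icc 1 D ×ˢ Icc 1 B).filter (fun ab : ℕ × ℕ => ∃ p : ℕ, p.Prime ∧ z < p ∧ p ∣ ab.1 ∧ p ∣ ab.2) = ∅ := by
      rw [filter_eq_empty_iff]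
      intro ab hab
      rw [mem_product, mem_Icc] at hab
      rintro ⟨p, -, h1, h2, -⟩
      have := Nat.le_of_dvd hab.1.1 h2
      omega
    rw [h0, card_empty]
    push_cast
    positivity
  · have hsub : (Icc 1 D ×ˢ Icc 1 B).filter (fun ab : ℕ × ℕ => ∃ p : ℕ, p.Prime ∧ z < p ∧ p ∣ ab.1 ∧ p ∣ ab.2) ⊆
        (Ioc z D).biUnion (fun p => (Icc 1 D).filter (fun a => p ∣ a) ×ˢ (Icc 1 B).filter (fun b => p ∣ b)) := by
      intro ab hab
      rw [mem_filter, mem_product] at hab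
      obtain ⟨⟨h1, h2⟩, p, hp, hzp, h3, h4⟩ := hab
      rw [mem_biUnion]
      refine ⟨p, ?_, ?_⟩
      · rw [mem_Ioc]
        rw [mem_Icc] at h1
        exact ⟨hzp, (Nat.le_of_dvd h1.1 h3).trans h1.2⟩
      · rw [mem_product, mem_filter, mem_filter]
        exact ⟨⟨h1, h3⟩, h2, h4⟩
    calc _ ≤ (#((Ioc z D).biUnion (fun p => (Icc 1 D).filter (fun a => p ∣ a) ×ˢ (Icc 1 B).filter (fun b => p ∣ b))) : ℝ) := by
          exact_mod_cast card_le_card hsub
      _ ≤ ∑ p ∈ Ioc z D, (#((Icc 1 D).filter (fun a => p ∣ a) ×ˢ (Icc 1 B).filter (fun b => p ∣ b)) : ℝ) := by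
          exact_mod_cast card_biUnion_le
      _ ≤ ∑ p ∈ Ioc z D, ((D : ℝ) * B) * (1 / (p : ℝ) ^ 2) := by
          apply sum_le_sum
          intro p hp
          rw [mem_Ioc] at hp
          have hp0 : (0 : ℝ) < p := by exact_mod_cast (by omega : 0 < p)
          rw [card_product]
          push_cast
          calc _ ≤ ((D : ℝ) / p) * ((B : ℝ) / p) := mul_le_mul (card_mult D p) (card_mult B p) (by positivity) (by positivity)
            _ = _ := by field_simp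
      _ = ((D : ℝ) * B) * ∑ p ∈ Ioc z D, 1 / (p : ℝ) ^ 2 := by rw [mul_sum]
      _ ≤ ((D : ℝ) * B) * (1 / z) := by
          apply mul_le_mul_of_nonneg_left _ (by positivity)
          refine (sum_inv_sq z D hz hDz).trans ?_
          have : (0 : ℝ) ≤ 1 / (D : ℝ) := by positivity
          linarith
      _ = _ := by ring

lemma pairs_row (D B : ℕ) (Q : ℕ → ℕ → Prop) [DecidablePred (fun ab : ℕ × ℕ => Q ab.1 ab.2)] [∀ a, DecidablePred (fun b => Q a b)] (ε : ℝ) (h : ∀ a ∈ Icc 1 D, (#((Icc 1 B).filter (fun b => Q a b)) : ℝ) ≤ ε) :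
    (#((Icc 1 D ×ˢ Icc 1 B).filter (fun ab : ℕ × ℕ => Q ab.1 ab.2)) : ℝ) ≤ D * ε := by
  have e : (#((Icc 1 D ×ˢ Icc 1 B).filter (fun ab : ℕ × ℕ => Q ab.1 ab.2)) : ℝ) =
      ∑ a ∈ Icc 1 D, (#((Icc 1 B).filter (fun b => Q a b)) : ℝ) := by
    simp only [card_filter]
    push_cast
    rw [sum_product]
  rw [e]
  refine (sum_le_sum h).trans ?_
  rw [sum_const, Nat.card_Icc, nsmul_eq_mul]
  simp

lemma pairs_col (D B : ℕ) (Q : ℕ → ℕ → Prop) [DecidablePred (fun ab : ℕ × ℕ => Q ab.1 ab.2)] [∀ b, DecidablePred (fun a => Q a b)] (ε : ℝ) (h : ∀ b ∈ Icc 1 B, (#((Icc 1 D).filter (fun a => Q a b)) : ℝ) ≤ ε) :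
    (#((Icc 1 D ×ˢ Icc 1 B).filter (fun ab : ℕ × ℕ => Q ab.1 ab.2)) : ℝ) ≤ B * ε := by
  have e : (#((Icc 1 D ×ˢ Icc 1 B).filter (fun ab : ℕ × ℕ => Q ab.1 ab.2)) : ℝ) =
      ∑ b ∈ Icc 1 B, (#((Icc 1 D).filter (fun a => Q a b)) : ℝ) := by
    simp only [card_filter]
    push_cast
    rw [sum_product_right]
  rw [e]
  refine (sum_le_sum h).trans ?_
  rw [sum_const, Nat.card_Icc, nsmul_eq_mul]
  simp

/-- the tails of the products, for both shapes of the box -/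
theorem tail_box (U K : ℕ) : ∃ E0 : ℕ, ∀ E : ℕ, E0 ≤ E → ∃ x0 : ℕ, ∀ x : ℕ, x0 ≤ x → ∀ z : ℕ,
    Real.log x ^ E ≤ 2 * z → (z : ℝ) ≤ Real.log x ^ E → ∀ D B : ℕ, 1 ≤ D → (D : ℝ) ≤ (x : ℝ) ^ K → x ≤ B →
    (B : ℝ) ≤ (x : ℝ) ^ (K + 2) → ∀ c : ℤ, c ≠ 0 → |c| ^ 30 ≤ (x : ℤ) →
    ∃ Bad ⊆ Icc 1 D ×ˢ Icc 1 B, (#Bad : ℝ) ≤ D * B / (4 * Real.log x ^ U) ∧
      ∀ a ∈ Icc 1 D, ∀ b ∈ Icc 1 B, (a, b) ∉ Bad → 8 * |c| * D ≤ (b : ℤ) →
        ¬ IsSquare ((b : ℤ) ^ 2 - 4 * (a : ℤ) * c) ∧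
        ∀ᶠ N in atTop, |SJ ((b : ℤ) ^ 2 - 4 * (a : ℤ) * c) z N| ≤ 1 / Real.log x ^ U := by
  classical
  obtain ⟨U', hU'⟩ : ∃ U', U' = U + 2 := ⟨_, rfl⟩
  refine ⟨3 * U' + 4, fun E hE => ?_⟩
  obtain ⟨M, hM⟩ : ∃ M, M = 30 * (2 * K + 5) := ⟨_, rfl⟩
  obtain ⟨n1, hn1⟩ := tail_b U' E
  obtain ⟨n2, hn2⟩ := tail_a U' (E + 1) M (by omega)
  have hlim : Filter.Tendsto (fun N : ℕ => Real.log (N : ℝ)) Filter.atTop Filter.atTop :=
    Real.tendsto_log_atTop.comp (tendsto_natCast_atTop_atTop (R := ℝ))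
  obtain ⟨n3, hn3⟩ := eventually_atTop.1 (hlim.eventually_ge_atTop
    (2 * ((K : ℝ) + 2) ^ (3 * U' + 3) + 30 ^ (E + 1) + 4 * 30 ^ U'))
  refine ⟨max (max n1 (n2 ^ 30)) (max n3 32768), fun x hx z hz1 hz2 D B hD1 hDx hxB hBx c hc hcx => ?_⟩
  have b1 : n1 ≤ x := (le_max_left _ _).trans ((le_max_left _ _).trans hx)
  have b2 : n2 ^ 30 ≤ x := (le_max_right _ _).trans ((le_max_left _ _).trans hx)
  have b3 := hn3 x ((le_max_left _ _).trans ((le_max_right _ _).trans hx))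
  have b4 : 32768 ≤ x := (le_max_right _ _).trans ((le_max_right _ _).trans hx)
  set L := Real.log x with hL
  have hx0 : (0 : ℝ) < x := by exact_mod_cast (by omega : 0 < x)
  have hx1 : (1 : ℝ) ≤ x := by exact_mod_cast (by omega : 1 ≤ x)
  have hK0 : (0 : ℝ) ≤ K := Nat.cast_nonneg _
  have g1 : 0 < ((K : ℝ) + 2) ^ (3 * U' + 3) := by positivity
  have g2 : (0 : ℝ) < 30 ^ (E + 1) := by positivity
  have g3 : (0 : ℝ) < 30 ^ U' := by positivity
  have g3' : (1 : ℝ) ≤ 30 ^ U' := one_le_pow₀ (by norm_num)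
  have hL4 : 4 ≤ L := by linarith
  have hL0 : 0 < L := by linarith
  have hL1 : 1 ≤ L := by linarith
  have hLp : ∀ k : ℕ, 0 < L ^ k := fun k => by positivity
  have hD0 : (0 : ℝ) < D := by exact_mod_cast hD1
  have hB1 : 1 ≤ B := by omega
  have hB0 : (0 : ℝ) < B := by exact_mod_cast hB1
  -- the logarithms of `B` and `D` are at most `(K + 2) L`
  have hlogB : Real.log B ≤ ((K : ℝ) + 2) * L := by
    have h1 := Real.log_le_log hB0 hBx
    rw [Real.log_pow] at h1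
    push_cast at h1
    exact h1
  have hlogD : Real.log D ≤ ((K : ℝ) + 2) * L := by
    have h1 := Real.log_le_log hD0 hDx
    rw [Real.log_pow] at h1
    nlinarith
  have hup : ∀ y : ℝ, 0 ≤ y → y ≤ ((K : ℝ) + 2) * L → y ^ (3 * U' + 3) ≤ z := by
    intro y hy0 hy
    have h1 : y ^ (3 * U' + 3) ≤ (((K : ℝ) + 2) * L) ^ (3 * U' + 3) := pow_le_pow_left₀ hy0 hy _
    have h2 : (((K : ℝ) + 2) * L) ^ (3 * U' + 3) * 2 ≤ L ^ E := by
      calc (((K : ℝ) + 2) * L) ^ (3 * U' + 3) * 2 = (2 * ((K : ℝ) + 2) ^ (3 * U' + 3)) * L ^ (3 * U' + 3) := by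
            rw [mul_pow]; ring
        _ ≤ L * L ^ (3 * U' + 3) := mul_le_mul_of_nonneg_right (by linarith) (hLp _).le
        _ = L ^ (3 * U' + 4) := by rw [← pow_succ']
        _ ≤ L ^ E := pow_le_pow_right₀ hL1 hE
    linarith
  have hc0 : 1 ≤ |c| := Int.one_le_abs hc
  have hcn : (|c| : ℤ) = (c.natAbs : ℤ) := (Int.natCast_natAbs c).symm
  have hcx' : c.natAbs ^ 30 ≤ x := by
    rw [hcn] at hcx
    exact_mod_cast hcx
  have hcn1 : 1 ≤ c.natAbs := Int.natAbs_pos.2 hc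
  rcases Nat.lt_or_ge (D ^ 30) x with hcase | hcase
  · -- the first case
    have hlogB1 : L ≤ Real.log B := Real.log_le_log hx0 (by exact_mod_cast hxB)
    have hex : ∀ a : ℕ, ∃ Ex : Finset ℕ, a ∈ Icc 1 D → ((#Ex : ℝ) ≤ B / Real.log B ^ U' ∧
        ∀ b ∈ Icc 1 B, b ∉ Ex → ¬ IsSquare ((b : ℤ) ^ 2 - 4 * (a : ℤ) * c) ∧
          ∀ᶠ N in atTop, |SJ ((b : ℤ) ^ 2 - 4 * (a : ℤ) * c) z N| ≤ 1 / Real.log B ^ U') := by
      intro a
      by_cases ha : a ∈ Icc 1 D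
      · rw [mem_Icc] at ha
        have f1 : 4 * (a : ℤ) * c ≠ 0 := by
          have : (a : ℤ) ≠ 0 := by exact_mod_cast (by omega : a ≠ 0)
          exact mul_ne_zero (mul_ne_zero (by norm_num) this) hc
        have f2 : (4 * (a : ℤ) * c).natAbs ^ 5 ≤ B := by
          have e1 : (4 * (a : ℤ) * c).natAbs = 4 * a * c.natAbs := by
            rw [Int.natAbs_mul, Int.natAbs_mul]; rfl
          rw [e1]
          obtain ⟨q, hq⟩ : ∃ q, q = D ^ 5 * c.natAbs ^ 5 := ⟨_, rfl⟩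
          have h3 : (4 * a * c.natAbs) ^ 5 ≤ 1024 * q := by
            calc (4 * a * c.natAbs) ^ 5 ≤ (4 * D * c.natAbs) ^ 5 := by
                  apply Nat.pow_le_pow_left
                  exact Nat.mul_le_mul_right _ (Nat.mul_le_mul_left 4 ha.2)
              _ = 1024 * q := by rw [hq]; ring
          have h4 : q ^ 3 ≤ x := by
            have h5 : (q ^ 3) ^ 2 ≤ x ^ 2 := by
              calc (q ^ 3) ^ 2 = D ^ 30 * c.natAbs ^ 30 := by rw [hq]; ring
                _ ≤ x * x := Nat.mul_le_mul hcase.le hcx'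
                _ = x ^ 2 := by ring
            exact (Nat.pow_le_pow_iff_left (by norm_num)).1 h5
          have h5 : 1024 * q ≤ x := by
            rcases Nat.lt_or_ge q 32 with h | h
            · omega
            · calc 1024 * q = 32 ^ 2 * q := by norm_num
                _ ≤ q ^ 2 * q := Nat.mul_le_mul_right _ (Nat.pow_le_pow_left h 2)
                _ = q ^ 3 := by ring
                _ ≤ x := h4
          omega
        obtain ⟨Ex, h1, h2⟩ := hn1 B (b1.trans hxB) z (hup _ (by linarith) hlogB)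
          (hz2.trans (pow_le_pow_left₀ hL0.le hlogB1 E)) (4 * (a : ℤ) * c) f1 f2
        exact ⟨Ex, fun _ => ⟨h1, h2⟩⟩
      · exact ⟨∅, fun h => absurd h ha⟩
    choose Ex hEx using hex
    refine ⟨(Icc 1 D ×ˢ Icc 1 B).filter (fun ab : ℕ × ℕ => ab.2 ∈ Ex ab.1), filter_subset _ _, ?_, ?_⟩
    · have h1 := pairs_row D B (fun a b => b ∈ Ex a) (B / (4 * L ^ U)) ?_
      · refine h1.trans (le_of_eq ?_)
        ring
      · intro a ha
        have h2 : (#((Icc 1 B).filter (fun b => b ∈ Ex a)) : ℝ) ≤ #(Ex a) := by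
          exact_mod_cast card_le_card (fun b hb => (mem_filter.1 hb).2)
        refine h2.trans ((hEx a ha).1.trans ?_)
        apply div_le_div_of_nonneg_left hB0.le (by positivity)
        have h3 : L ^ U' ≤ Real.log B ^ U' := pow_le_pow_left₀ hL0.le hlogB1 _
        refine le_trans ?_ h3
        rw [hU', pow_add]
        have : 4 ≤ L ^ 2 := by nlinarith
        have := mul_le_mul_of_nonneg_left this (hLp U).le
        linarith
    · intro a ha b hb hab _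
      rw [mem_filter, mem_product, not_and] at hab
      obtain ⟨h1, h2⟩ := (hEx a ha).2 b hb (hab ⟨ha, hb⟩)
      refine ⟨h1, ?_⟩
      filter_upwards [h2] with N hN
      refine hN.trans ?_
      apply one_div_le_one_div_of_le (hLp _)
      calc L ^ U ≤ L ^ U' := pow_le_pow_right₀ hL1 (by omega)
        _ ≤ _ := pow_le_pow_left₀ hL0.le hlogB1 _
  · -- the second case
    have hlogD1 : L / 30 ≤ Real.log D := by
      have h1 : (x : ℝ) ≤ (D : ℝ) ^ 30 := by exact_mod_cast hcase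
      have h2 := Real.log_le_log hx0 h1
      rw [Real.log_pow] at h2
      push_cast at h2
      linarith
    have hlogD0 : 0 < Real.log D := lt_of_lt_of_le (by positivity) hlogD1
    have hn2D : n2 ≤ D := by
      have := b2.trans hcase
      exact (Nat.pow_le_pow_iff_left (by norm_num)).1 this
    have hzD : (z : ℝ) ≤ Real.log D ^ (E + 1) := by
      have h1 : (L / 30) ^ (E + 1) ≤ Real.log D ^ (E + 1) := pow_le_pow_left₀ (by positivity) hlogD1 _
      refine le_trans ?_ h1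
      rw [div_pow, le_div_iff₀ (by positivity), pow_succ L E]
      calc (z : ℝ) * 30 ^ (E + 1) ≤ L ^ E * 30 ^ (E + 1) := mul_le_mul_of_nonneg_right hz2 (by positivity)
        _ ≤ L ^ E * L := mul_le_mul_of_nonneg_left (by linarith) (hLp _).le
    have hex : ∀ b : ℕ, ∃ Ex : Finset ℕ, (b ∈ Icc 1 B ∧ 8 * |c| * D ≤ (b : ℤ)) → ((#Ex : ℝ) ≤ D / Real.log D ^ U' ∧
        ∀ a ∈ Icc 1 D, a ∉ Ex → ¬ IsSquare ((b : ℤ) ^ 2 - 4 * (a : ℤ) * c) ∧
          ∀ᶠ N in atTop, |SJ ((b : ℤ) ^ 2 - 4 * (a : ℤ) * c) z N| ≤ 1 / Real.log D ^ U') := by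
      intro b
      by_cases hb : b ∈ Icc 1 B ∧ 8 * |c| * D ≤ (b : ℤ)
      · have f1 : (b : ℤ) ^ 2 + 4 * |c| * D ≤ (D : ℤ) ^ M := by
          have hbB := (mem_Icc.1 hb.1).2
          have h3 : (b : ℤ) ^ 2 + 4 * |c| * D ≤ 2 * (B : ℤ) ^ 2 := by
            have h4 : (b : ℤ) ≤ B := by exact_mod_cast hbB
            have h5 : (1 : ℤ) ≤ b := by exact_mod_cast (mem_Icc.1 hb.1).1
            nlinarith [hb.2]
          refine h3.trans ?_
          have hxn : B ≤ x ^ (K + 2) := by exact_mod_cast hBx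
          have h4 : 2 * B ^ 2 ≤ D ^ M := by
            calc 2 * B ^ 2 ≤ x * (x ^ (K + 2)) ^ 2 := Nat.mul_le_mul (by omega) (Nat.pow_le_pow_left hxn 2)
              _ = x ^ (2 * K + 5) := by ring
              _ ≤ (D ^ 30) ^ (2 * K + 5) := Nat.pow_le_pow_left hcase _
              _ = D ^ M := by rw [← pow_mul, hM]
          exact_mod_cast h4
        obtain ⟨Ex, h1, h2⟩ := hn2 D hn2D z (hup _ hlogD0.le hlogD) hzD b c hc hb.2 f1
        exact ⟨Ex, fun _ => ⟨h1, h2⟩⟩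
      · exact ⟨∅, fun h => absurd h hb⟩
    choose Ex hEx using hex
    have hUU : 4 * L ^ U ≤ Real.log D ^ U' := by
      have h3 : (L / 30) ^ U' ≤ Real.log D ^ U' := pow_le_pow_left₀ (by positivity) hlogD1 _
      refine le_trans ?_ h3
      rw [div_pow, le_div_iff₀ g3, hU', pow_add L U 2]
      have h4 : 4 * 30 ^ (U + 2) ≤ L ^ 2 := by
        rw [← hU']
        have : L ≤ L ^ 2 := le_self_pow₀ hL1 (by norm_num)
        linarith
      have := mul_le_mul_of_nonneg_left h4 (hLp U).le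
      linarith
    refine ⟨(Icc 1 D ×ˢ Icc 1 B).filter (fun ab : ℕ × ℕ => 8 * |c| * D ≤ (ab.2 : ℤ) ∧ ab.1 ∈ Ex ab.2), filter_subset _ _, ?_, ?_⟩
    · have h1 := pairs_col D B (fun a b => 8 * |c| * D ≤ (b : ℤ) ∧ a ∈ Ex b) (D / (4 * L ^ U)) ?_
      · refine h1.trans (le_of_eq ?_)
        ring
      · intro b hb
        by_cases hb2 : 8 * |c| * D ≤ (b : ℤ)
        · have h2 : (#((Icc 1 D).filter (fun a => 8 * |c| * D ≤ (b : ℤ) ∧ a ∈ Ex b)) : ℝ) ≤ #(Ex b) := by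
            exact_mod_cast card_le_card (fun a ha => by rw [mem_filter] at ha; exact ha.2.2)
          refine h2.trans ((hEx b ⟨hb, hb2⟩).1.trans ?_)
          exact div_le_div_of_nonneg_left hD0.le (by positivity) hUU
        · have h2 : (Icc 1 D).filter (fun a => 8 * |c| * D ≤ (b : ℤ) ∧ a ∈ Ex b) = ∅ := by
            rw [filter_eq_empty_iff]
            rintro a _ ⟨h3, -⟩
            exact hb2 h3
          rw [h2, card_empty]
          push_cast
          positivity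
    · intro a ha b hb hab hb2
      rw [mem_filter, mem_product, not_and, not_and] at hab
      obtain ⟨h1, h2⟩ := (hEx b ⟨hb, hb2⟩).2 a ha (hab ⟨ha, hb⟩ hb2)
      refine ⟨h1, ?_⟩
      filter_upwards [h2] with N hN
      refine hN.trans ?_
      apply one_div_le_one_div_of_le (hLp _)
      have := hLp U
      linarith

end Pool.Agent.Y868.TB
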