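import Pool.Agent.Y868.TB.T1
import Pool.Agent.H398R2.BA3

/-! Elementary inequalities. -/

set_option autoImplicit false

namespace Pool.Agent.Y868.TB
open Finset Filter Topology
open Pool.Agent.W468.ConjF

lemma evt_root (N k : ℕ) (hN : 1 ≤ N) (c : ℝ) : ∃ H0 : ℕ, ∀ H : ℕ, H0 ≤ H → c * Real.log H ^ k ≤ (H : ℝ) ^ ((1 : ℝ) / N) := by
  have h := (isLittleO_log_rpow_rpow_atTop (k : ℝ) (show (0 : ℝ) < 1 / N by positivity)).bound (show 0 < 1 / (|c| + 1) by positivity)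
  have h2 := (tendsto_natCast_atTop_atTop (R := ℝ)).eventually h
  obtain ⟨x0, hx0⟩ := Filter.eventually_atTop.1 h2
  refine ⟨max x0 1, fun x hx => ?_⟩
  have h3 := hx0 x ((le_max_left _ _).trans hx)
  have hx1 : (1 : ℝ) ≤ x := by exact_mod_cast (le_max_right _ _).trans hx
  have hl : 0 ≤ Real.log x := Real.log_nonneg hx1
  rw [Real.norm_of_nonneg (by positivity), Real.norm_of_nonneg (by positivity), Real.rpow_natCast, one_div,
    inv_mul_eq_div, le_div_iff₀ (by positivity)] at h3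
  have h4 : 0 ≤ Real.log x ^ k := by positivity
  have h5 := le_abs_self c
  nlinarith

lemma aux1 (l L c : ℝ) (h0 : 0 ≤ l) (hc : 0.6931471803 < c) (h : l * c ≤ L) : l ≤ 1.5 * L := by nlinarith

lemma aux2 (l L c : ℝ) (h0 : 0 ≤ l) (hc : c < 0.6931471808) (h : L ≤ (l + 1) * c) : 1.4 * L - 1 ≤ l := by nlinarith

lemma aux3 (y c : ℝ) (hy : 4 ≤ y) (hc : 0.6 < c) : y ≤ (y * c) ^ 2 := by
  have h5 : y * 0.6 ≤ y * c := mul_le_mul_of_nonneg_left hc.le (by linarith)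
  have h6 : (y * 0.6) ^ 2 ≤ (y * c) ^ 2 := pow_le_pow_left₀ (by linarith) h5 2
  nlinarith

lemma aux4 (t I c : ℝ) (ht : 0 < t) (hI : t ≤ I) (hc : 0.6 < c) : t / 2 ≤ I * c := by nlinarith

end Pool.Agent.Y868.TB
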