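import Pool.Agent.Y868.TB.T2
import Pool.Agent.W218.HF.QFinal
import Pool.Agent.Y868.TA.E2

/-! Comparison of the densities cut at `z` with the constant of Conjecture F. -/

set_option autoImplicit false

namespace Pool.Agent.Y868.TB
open Finset Filter Topology
open Pool.Agent.W468.ConjF
open Pool.Agent.W218.HF.QFinal (eps gcdProd cutC gcdProd_pos eps_pos CF_eq)
open Pool.Agent.W218.HF (rough_euler PS)
open Pool.Agent.Y868.TA (dens pol)
open Pool.Agent.H373R2.T7 (pz Vz mem_pz)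

lemma one_sub_ge (y : ℝ) (hy : y ≤ 1 / 2) (hy2 : -1 / 2 ≤ y) : Real.exp (-(y + 2 * y ^ 2)) ≤ 1 - y := by
  have h0 : 0 < 1 + (y + 2 * y ^ 2) := by nlinarith [sq_nonneg y]
  have h1 := Real.add_one_le_exp (y + 2 * y ^ 2)
  have h2 : 1 ≤ (1 - y) * (1 + (y + 2 * y ^ 2)) := by nlinarith [mul_nonneg (sq_nonneg y) (by linarith : 0 ≤ 1 - 2 * y)]
  have h3 : 0 < 1 - y := by linarith
  rw [Real.exp_neg, inv_le_iff_one_le_mul₀ (Real.exp_pos _)]
  calc 1 ≤ (1 - y) * (1 + (y + 2 * y ^ 2)) := h2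
    _ ≤ (1 - y) * Real.exp (y + 2 * y ^ 2) := mul_le_mul_of_nonneg_left (by linarith) h3.le

lemma PJ_ge (D : ℤ) (z N : ℕ) (hz : 2 ≤ z) (hN : z ≤ N) : Real.exp (-(|SJ D z N| + 5 / z)) ≤ PJ D z N := by
  have h1 : ∏ p ∈ (Ioc z N).filter Nat.Prime, Real.exp (-((jacobiSym D p : ℝ) / p) - 5 * (1 / ((p : ℝ) * (p - 1)))) ≤ PJ D z N := by
    unfold PJ
    apply Finset.prod_le_prod
    · intro p _
      exact (Real.exp_pos _).le
    · intro p hp
      rw [mem_filter, mem_Ioc] at hp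
      have hp3 : (3 : ℝ) ≤ p := by exact_mod_cast (by omega : 3 ≤ p)
      have hp1 : (0 : ℝ) < p - 1 := by linarith
      have hp0 : (0 : ℝ) < p := by linarith
      set s : ℝ := (jacobiSym D p : ℝ) with hs
      have hs1 := abs_le.1 (js_abs D p)
      rw [← hs] at hs1
      have hy1 : s / (p - 1) ≤ 1 / 2 := by
        rw [div_le_div_iff₀ hp1 (by norm_num)]; linarith [hs1.2]
      have hy2 : -1 / 2 ≤ s / (p - 1) := by
        rw [div_le_div_iff₀ (by norm_num) hp1]; linarith [hs1.1]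
      refine le_trans (Real.exp_le_exp.2 ?_) (one_sub_ge _ hy1 hy2)
      have h3 : s / (p - 1) = s / p + s * (1 / (p * (p - 1))) := by
        field_simp
        ring
      have h4 : (s / (p - 1)) ^ 2 ≤ 2 * (1 / ((p : ℝ) * (p - 1))) := by
        rw [div_pow]
        have h5 : s ^ 2 ≤ 1 := by nlinarith [hs1.1, hs1.2]
        calc s ^ 2 / (p - 1) ^ 2 ≤ 1 / (p - 1) ^ 2 := div_le_div_of_nonneg_right h5 (by positivity)
          _ ≤ 2 * (1 / ((p : ℝ) * (p - 1))) := by
              rw [mul_one_div, div_le_div_iff₀ (by positivity) (by positivity)]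
              nlinarith
      have h5 : 0 ≤ 1 / ((p : ℝ) * (p - 1)) := by positivity
      have h6 : s * (1 / ((p : ℝ) * (p - 1))) ≤ 1 / ((p : ℝ) * (p - 1)) := by
        have := mul_le_mul_of_nonneg_right hs1.2 h5
        linarith
      rw [h3] at h4 ⊢
      linarith
  refine le_trans ?_ h1
  rw [← Real.exp_sum]
  apply Real.exp_le_exp.2
  rw [sum_sub_distrib, sum_neg_distrib, ← mul_sum]
  have h5 : ∑ p ∈ (Ioc z N).filter Nat.Prime, 1 / ((p : ℝ) * (p - 1)) ≤ 1 / z := by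
    calc ∑ p ∈ (Ioc z N).filter Nat.Prime, 1 / ((p : ℝ) * (p - 1)) ≤ ∑ p ∈ Ioc z N, 1 / ((p : ℝ) * (p - 1)) := by
          apply sum_le_sum_of_subset_of_nonneg (filter_subset _ _)
          intro p hp _
          rw [mem_Ioc] at hp
          have hp3 : (3 : ℝ) ≤ p := by exact_mod_cast (by omega : 3 ≤ p)
          apply div_nonneg zero_le_one
          apply mul_nonneg <;> linarith
      _ ≤ 1 / (z : ℝ) - 1 / (N : ℝ) := sum_inv_mul z N (by omega) hN
      _ ≤ 1 / (z : ℝ) := by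
          have : (0 : ℝ) ≤ 1 / (N : ℝ) := by positivity
          linarith
  have h6 : ∑ p ∈ (Ioc z N).filter Nat.Prime, (jacobiSym D p : ℝ) / p ≤ |SJ D z N| := le_abs_self _
  have h7 : (5 : ℝ) / z = 5 * (1 / z) := by ring
  rw [h7]
  linarith

/-- the part of the product between `z` and `N` over the primes not dividing `a` -/
noncomputable def RJ (a D : ℤ) (z N : ℕ) : ℝ :=
  ∏ p ∈ ((Ioc z N).filter Nat.Prime).filter (fun p : ℕ => ¬ (p : ℤ) ∣ a), (1 - (jacobiSym D p : ℝ) / (p - 1))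

/-- the part over the primes dividing `a` -/
noncomputable def QJ (a D : ℤ) (z N : ℕ) : ℝ :=
  ∏ p ∈ ((Ioc z N).filter Nat.Prime).filter (fun p : ℕ => (p : ℤ) ∣ a), (1 - (jacobiSym D p : ℝ) / (p - 1))

lemma QJ_RJ (a D : ℤ) (z N : ℕ) : QJ a D z N * RJ a D z N = PJ D z N := by
  unfold QJ RJ PJ
  rw [prod_filter_mul_prod_filter_not]

lemma QJ_bd (a D : ℤ) (z N : ℕ) (hz : 2 ≤ z) (ha : 0 < a) :
    Real.exp (-(4 * Real.log a.natAbs / z)) ≤ QJ a D z N ∧ QJ a D z N ≤ Real.exp (2 * Real.log a.natAbs / z) := by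
  have hz0 : (0 : ℝ) < z := by exact_mod_cast (by omega : 0 < z)
  have hzr : (2 : ℝ) ≤ z := by exact_mod_cast hz
  set T := ((Ioc z N).filter Nat.Prime).filter (fun p : ℕ => (p : ℤ) ∣ a) with hT
  have hcard : (#T : ℝ) ≤ 2 * Real.log a.natAbs := by
    refine le_trans ?_ (Pool.Agent.H398R2.BV.omega_le_log a.natAbs (by omega))
    have : T ⊆ a.natAbs.primeFactors := by
      intro p hp
      rw [hT, mem_filter, mem_filter] at hp
      rw [Nat.mem_primeFactors]
      exact ⟨hp.1.2, Int.natCast_dvd.1 hp.2, by omega⟩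
    exact_mod_cast card_le_card this
  have hf : ∀ p ∈ T, |(jacobiSym D p : ℝ) / ((p : ℝ) - 1)| ≤ 1 / z := by
    intro p hp
    rw [hT, mem_filter, mem_filter, mem_Ioc] at hp
    have h1 : (z : ℝ) + 1 ≤ p := by exact_mod_cast hp.1.1.1
    rw [abs_div, abs_of_pos (by linarith : (0 : ℝ) < (p : ℝ) - 1)]
    exact div_le_div₀ zero_le_one (js_abs D p) hz0 (by linarith)
  constructor
  · have h1 : ∏ p ∈ T, Real.exp (-(2 / z : ℝ)) ≤ QJ a D z N := by
      unfold QJ
      apply Finset.prod_le_prod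
      · intro _ _; exact (Real.exp_pos _).le
      · intro p hp
        have h2 := abs_le.1 (hf p hp)
        have h3 : (1 : ℝ) / z ≤ 1 / 2 := one_div_le_one_div_of_le (by norm_num) hzr
        refine le_trans (Real.exp_le_exp.2 ?_) (one_sub_ge _ (by linarith [h2.2]) (by linarith [h2.1]))
        have h4 : ((jacobiSym D p : ℝ) / ((p : ℝ) - 1)) ^ 2 ≤ (1 / z) ^ 2 := by
          rw [← sq_abs]
          exact pow_le_pow_left₀ (abs_nonneg _) (hf p hp) 2
        have h5 : ((1 : ℝ) / z) ^ 2 ≤ (1 / 2) * (1 / z) := by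
          rw [sq]
          exact mul_le_mul_of_nonneg_right h3 (by positivity)
        have h6 : (2 : ℝ) / z = 2 * (1 / z) := by ring
        rw [h6]
        linarith [h2.2]
    refine le_trans ?_ h1
    rw [prod_const, ← Real.exp_nat_mul]
    apply Real.exp_le_exp.2
    have h2 : (#T : ℝ) * (2 / z) ≤ (2 * Real.log a.natAbs) * (2 / z) := mul_le_mul_of_nonneg_right hcard (by positivity)
    have h3 : (2 * Real.log a.natAbs) * (2 / z) = 4 * Real.log a.natAbs / z := by ring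
    linarith
  · have h1 : QJ a D z N ≤ ∏ p ∈ T, Real.exp (1 / z : ℝ) := by
      unfold QJ
      apply Finset.prod_le_prod
      · intro p hp
        rw [mem_filter, mem_filter, mem_Ioc] at hp
        exact (factor_pos D p (by omega)).le
      · intro p hp
        have h2 := abs_le.1 (hf p hp)
        have h3 := Real.add_one_le_exp ((1 : ℝ) / z)
        linarith [h2.1]
    refine h1.trans ?_
    rw [prod_const, ← Real.exp_nat_mul]
    apply Real.exp_le_exp.2
    have h2 : (#T : ℝ) * (1 / z) ≤ (2 * Real.log a.natAbs) * (1 / z) := mul_le_mul_of_nonneg_right hcard (by positivity)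
    have h3 : (2 * Real.log a.natAbs) * (1 / z) = 2 * Real.log a.natAbs / z := by ring
    linarith

/-- no prime above `z` divides `a` and `b` -/
def NoBig (a b : ℤ) (z : ℕ) : Prop := ∀ p : ℕ, p.Prime → z < p → ¬ ((p : ℤ) ∣ a ∧ (p : ℤ) ∣ b)

lemma CF_split' (a b c : ℤ) (z N : ℕ) (hz : 2 ≤ z) (hN : z ≤ N) (hab : NoBig a b z) :
    CF a b c N = CF a b c z * RJ a (b ^ 2 - 4 * a * c) z N := by
  unfold CF RJ
  have e1 : (range (N + 1)).filter (fun p : ℕ => p.Prime ∧ 3 ≤ p ∧ (p : ℤ) ∣ a ∧ (p : ℤ) ∣ b) =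
      (range (z + 1)).filter (fun p : ℕ => p.Prime ∧ 3 ≤ p ∧ (p : ℤ) ∣ a ∧ (p : ℤ) ∣ b) := by
    ext p
    simp only [mem_filter, mem_range]
    constructor
    · rintro ⟨h1, h2, h3, h4, h5⟩
      refine ⟨?_, h2, h3, h4, h5⟩
      by_contra hcon
      exact hab p h2 (by omega) ⟨h4, h5⟩
    · rintro ⟨h1, h2⟩
      exact ⟨by omega, h2⟩
  have e2 : (range (N + 1)).filter (fun p : ℕ => p.Prime ∧ 3 ≤ p ∧ ¬ (p : ℤ) ∣ a) =
      (range (z + 1)).filter (fun p : ℕ => p.Prime ∧ 3 ≤ p ∧ ¬ (p : ℤ) ∣ a) ∪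
        ((Ioc z N).filter Nat.Prime).filter (fun p : ℕ => ¬ (p : ℤ) ∣ a) := by
    ext p
    simp only [mem_filter, mem_range, mem_union, mem_Ioc]
    constructor
    · rintro ⟨h1, h2, h3, h4⟩
      rcases Nat.lt_or_ge p (z + 1) with h | h
      · exact Or.inl ⟨h, h2, h3, h4⟩
      · exact Or.inr ⟨⟨⟨by omega, by omega⟩, h2⟩, h4⟩
    · rintro (⟨h1, h2, h3, h4⟩ | ⟨⟨⟨h1, h2⟩, h3⟩, h4⟩)
      · exact ⟨by omega, h2, h3, h4⟩
      · exact ⟨by omega, h3, by omega, h4⟩
  rw [e1, e2, prod_union, ← mul_assoc]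
  rw [disjoint_left]
  intro p h1 h2
  simp only [mem_filter, mem_range, mem_Ioc] at h1 h2
  omega

lemma CF_eq' (a b c : ℤ) (ha : 0 < a) (z : ℕ) (hab : NoBig a b z) :
    2 * CF a b c z = eps a b * gcdProd a b * cutC a b c z := by
  unfold CF eps gcdProd cutC
  have e1 : (range (z + 1)).filter (fun p : ℕ => p.Prime ∧ 3 ≤ p ∧ (p : ℤ) ∣ a ∧ (p : ℤ) ∣ b) =
      (Int.gcd a b).primeFactors.filter (fun p => 2 < p) := by
    ext p
    simp only [mem_filter, mem_range, Nat.mem_primeFactors]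
    have hg : Int.gcd a b ≠ 0 := by
      intro h
      have := (Int.gcd_eq_zero_iff.1 h).1
      omega
    constructor
    · rintro ⟨-, h1, h2, h3, h4⟩
      refine ⟨⟨h1, ?_, hg⟩, by omega⟩
      have := Int.dvd_coe_gcd h3 h4
      exact_mod_cast this
    · rintro ⟨⟨h1, h2, -⟩, h3⟩
      have h4 : (p : ℤ) ∣ (Int.gcd a b : ℤ) := by exact_mod_cast h2
      have h5 : (p : ℤ) ∣ a := h4.trans (Int.gcd_dvd_left _ _)
      have h6 : (p : ℤ) ∣ b := h4.trans (Int.gcd_dvd_right _ _)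
      refine ⟨?_, h1, by omega, h5, h6⟩
      by_contra hcon
      exact hab p h1 (by omega) ⟨h5, h6⟩
  have e2 : (range (z + 1)).filter (fun p : ℕ => p.Prime ∧ 3 ≤ p ∧ ¬ (p : ℤ) ∣ a) =
      (Icc 3 z).filter (fun p : ℕ => p.Prime ∧ ¬ (p : ℤ) ∣ a) := by
    ext p
    simp only [mem_filter, mem_range, mem_Icc]
    constructor
    · rintro ⟨h0, h1, h2, h3⟩; exact ⟨⟨h2, by omega⟩, h1, h3⟩
    · rintro ⟨⟨h0, h1⟩, h2, h3⟩; exact ⟨by omega, h2, h0, h3⟩
  rw [e1, e2]
  split_ifs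
  · ring
  · ring

/-- the densities of `a X² + b X + c` -/
lemma dens_CF (a b : ℕ) (c : ℤ) (h : Admissible a b c) (z : ℕ) (hz : 2 ≤ z) :
    dens 0 c a b z = 2 * CF a b c z := by
  have h1 := rough_euler a b c h z hz
  have hS : PS z = pz z := by
    unfold PS pz
    ext p
    simp only [mem_filter, mem_Icc, mem_range]
    constructor
    · rintro ⟨h2, h3⟩; exact ⟨⟨h3.one_lt.le, by omega⟩, h3⟩
    · rintro ⟨h2, h3⟩; exact ⟨by omega, h3⟩
  have hV : ∏ p ∈ (Icc 1 z).filter Nat.Prime, (1 - 1 / (p : ℝ)) = Vz z := rfl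
  rw [hS, hV] at h1
  unfold Pool.Agent.Y868.TA.dens Pool.Agent.TH204.WR.hh
  have h2 : ∀ p, Pool.Agent.TH204.WR.rho (pol 0 a b) c p = nr a b c p := by
    intro p
    unfold Pool.Agent.TH204.WR.rho nr
    congr 1
    apply filter_congr
    intro r _
    rw [Pool.Agent.Y868.TA.pol_eval]
    have e : (r : ℤ) * ((0 : Polynomial ℤ).eval (r : ℤ) + (a : ℤ) * r + (b : ℤ)) + c = (a : ℤ) * (r : ℤ) ^ 2 + b * r + c := by
      rw [Polynomial.eval_zero]; ring
    rw [e]
  simp only [h2]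
  rw [h1, ← mul_assoc, inv_mul_cancel₀ (Pool.Agent.H373R2.T7.Vz_pos z).ne', one_mul]

/-- the constant exists, and is close to the densities -/
theorem const_close (a b : ℕ) (c : ℤ) (h : Admissible a b c) (z : ℕ) (hz : 2 ≤ z) (hab : NoBig a b z) (δ : ℝ)
    (hδ : ∀ᶠ N in atTop, |SJ ((b : ℤ) ^ 2 - 4 * a * c) z N| ≤ δ) (hδ1 : δ + 5 / z + 4 * Real.log a / z ≤ 1 / 2) :
    ∃ C : ℝ, 0 < C ∧ Tendsto (fun z => cutC a b c z) atTop (𝓝 C) ∧
      |dens 0 c a b z - eps a b * C * gcdProd a b| ≤ 2 * (δ + 5 / z + 4 * Real.log a / z) * (eps a b * C * gcdProd a b) := by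
  have ha0 : (0 : ℤ) < a := h.1
  have ha0' : 0 < a := by exact_mod_cast ha0
  have hz0 : (0 : ℝ) < z := by exact_mod_cast (by omega : 0 < z)
  obtain ⟨K0, hK0, hK⟩ := CF_tendsto a b c ha0 h.2.2.2
  have hg := gcdProd_pos a b
  have he := eps_pos a b
  have hne : eps a b * gcdProd a b ≠ 0 := by positivity
  have hla : 0 ≤ Real.log a := Real.log_nonneg (by exact_mod_cast ha0')
  have hNoBig : ∀ N, z ≤ N → NoBig a b N := fun N hN p hp hpN => hab p hp (by omega)
  refine ⟨2 * K0 / (eps a b * gcdProd a b), by positivity, ?_, ?_⟩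
  · have h5 : Tendsto (fun z => 2 * CF a b c z / (eps a b * gcdProd a b)) atTop
        (𝓝 (2 * K0 / (eps a b * gcdProd a b))) := (hK.const_mul 2).div_const _
    refine h5.congr' ?_
    filter_upwards [eventually_ge_atTop z] with N hN
    rw [CF_eq' a b c ha0 N (hNoBig N hN)]
    field_simp
  · have e1 : eps a b * (2 * K0 / (eps a b * gcdProd a b)) * gcdProd a b = 2 * K0 := by field_simp
    rw [e1, dens_CF a b c h z hz]
    set η : ℝ := δ + 5 / z + 4 * Real.log a / z with hη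
    have hCz := CF_pos a b c z
    -- the ratio
    have hR : ∀ᶠ N in atTop, Real.exp (-η) ≤ RJ a ((b : ℤ) ^ 2 - 4 * a * c) z N ∧ RJ a ((b : ℤ) ^ 2 - 4 * a * c) z N ≤ Real.exp η := by
      filter_upwards [hδ, eventually_ge_atTop z] with N h1 hN
      have hq := QJ_bd a ((b : ℤ) ^ 2 - 4 * a * c) z N hz ha0
      rw [Int.natAbs_natCast] at hq
      have hqr := QJ_RJ a ((b : ℤ) ^ 2 - 4 * a * c) z N
      have hp1 := PJ_le ((b : ℤ) ^ 2 - 4 * a * c) z N hz hN
      have hp2 := PJ_ge ((b : ℤ) ^ 2 - 4 * a * c) z N hz hN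
      have hq0 : 0 < QJ a ((b : ℤ) ^ 2 - 4 * a * c) z N := (Real.exp_pos _).trans_le hq.1
      have hRe : RJ a ((b : ℤ) ^ 2 - 4 * a * c) z N = PJ ((b : ℤ) ^ 2 - 4 * a * c) z N / QJ a ((b : ℤ) ^ 2 - 4 * a * c) z N := by
        rw [← hqr]; field_simp
      rw [hRe]
      constructor
      · rw [le_div_iff₀ hq0]
        calc Real.exp (-η) * QJ a ((b : ℤ) ^ 2 - 4 * a * c) z N ≤ Real.exp (-η) * Real.exp (2 * Real.log a / z) :=
              mul_le_mul_of_nonneg_left hq.2 (Real.exp_pos _).le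
          _ = Real.exp (-η + 2 * Real.log a / z) := by rw [← Real.exp_add]
          _ ≤ Real.exp (-(|SJ ((b : ℤ) ^ 2 - 4 * a * c) z N| + 5 / z)) := by
              apply Real.exp_le_exp.2
              rw [hη]
              have h2 : 2 * Real.log a / z ≤ 4 * Real.log a / z := div_le_div_of_nonneg_right (by linarith) hz0.le
              linarith
          _ ≤ _ := hp2
      · rw [div_le_iff₀ hq0]
        calc PJ ((b : ℤ) ^ 2 - 4 * a * c) z N ≤ Real.exp (|SJ ((b : ℤ) ^ 2 - 4 * a * c) z N| + 1 / z) := hp1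
          _ ≤ Real.exp (η + -(4 * Real.log a / z)) := by
              apply Real.exp_le_exp.2
              rw [hη]
              have h2 : (1 : ℝ) / z ≤ 5 / z := div_le_div_of_nonneg_right (by norm_num) hz0.le
              linarith
          _ = Real.exp η * Real.exp (-(4 * Real.log a / z)) := Real.exp_add _ _
          _ ≤ _ := mul_le_mul_of_nonneg_left hq.1 (Real.exp_pos _).le
    have hlow : CF a b c z * Real.exp (-η) ≤ K0 := by
      apply ge_of_tendsto hK
      filter_upwards [hR, eventually_ge_atTop z] with N h1 hN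
      rw [CF_split' a b c z N hz hN hab]
      exact mul_le_mul_of_nonneg_left h1.1 hCz.le
    have hupp : K0 ≤ CF a b c z * Real.exp η := by
      apply le_of_tendsto hK
      filter_upwards [hR, eventually_ge_atTop z] with N h1 hN
      rw [CF_split' a b c z N hz hN hab]
      exact mul_le_mul_of_nonneg_left h1.2 hCz.le
    have hδ0 : 0 ≤ δ := by
      obtain ⟨N, hN⟩ := hδ.exists
      exact (abs_nonneg _).trans hN
    have hη0 : 0 ≤ η := by rw [hη]; positivity
    -- `CF ≤ K0 e^η` and `K0 e^{-η} ≤ CF`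
    have g1 : CF a b c z ≤ K0 * Real.exp η := by
      have := mul_le_mul_of_nonneg_right hlow (Real.exp_pos η).le
      rwa [mul_assoc, ← Real.exp_add, neg_add_cancel, Real.exp_zero, mul_one] at this
    have g2 : K0 * Real.exp (-η) ≤ CF a b c z := by
      have := mul_le_mul_of_nonneg_right hupp (Real.exp_pos (-η)).le
      rwa [mul_assoc, ← Real.exp_add, add_neg_cancel, Real.exp_zero, mul_one] at this
    have g3 : Real.exp η ≤ 1 + 2 * η := by
      have h1 := Real.exp_bound_div_one_sub_of_interval hη0 (by linarith : η < 1)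
      refine h1.trans ?_
      rw [div_le_iff₀ (by linarith)]
      nlinarith
    have g4 : 1 - η ≤ Real.exp (-η) := by
      have := Real.add_one_le_exp (-η)
      linarith
    have g5 : CF a b c z ≤ K0 * (1 + 2 * η) := g1.trans (mul_le_mul_of_nonneg_left g3 hK0.le)
    have g6 : K0 * (1 - η) ≤ CF a b c z := (mul_le_mul_of_nonneg_left g4 hK0.le).trans g2
    have g7 : 0 ≤ K0 * η := mul_nonneg hK0.le hη0
    rw [abs_le]
    constructor <;> nlinarith

end Pool.Agent.Y868.TB
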